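import Pool.Agent.P.MP_9167e9_an.StW

/-!
Geometric definitions: cells, admissible families, the groups `Γ`, `P`, `N` and the space `Zm`.
Edges of Cayley graphs are `x — s x`; groups act on the right by isometries.
-/

noncomputable section
open scoped Classical

namespace Pool.Agent.P.MP_9167e9_an

/-- Global parameters: number of slots, order of the lamps, labels and their slots. -/
structure Prm where
  j : ℕ
  h : ℕ
  S : Type
  finS : Fintype S
  slot : S → Fin j

attribute [instance] Prm.finS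

/-- The parity double cover. -/
def dbl {j : ℕ} {V : Type} (τ : Fin j → Equiv.Perm V) (i : Fin j) : Equiv.Perm (V × ZMod 2) :=
  Equiv.prodCongr (τ i) (Equiv.addRight 1)

/-- Graph distance in the double cover. -/
def dC {j : ℕ} {V : Type} (τ : Fin j → Equiv.Perm V) (a b : V × ZMod 2) : ℕ :=
  sInf {n | ∃ u : List (Lt j), u.length = n ∧ go (dbl τ) u a = b}

/-- The height of a shortest walk in the double cover. -/
def HtC {j : ℕ} {V : Type} (τ : Fin j → Equiv.Perm V) (a b : V × ZMod 2) : ℤ :=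
  hts (Classical.epsilon fun u : List (Lt j) =>
    u.length = dC τ (a.1, 0) (b.1, b.2 - a.2) ∧ go (dbl τ) u (a.1, 0) = (b.1, b.2 - a.2))

/-- The parity of the length of a word. -/
def pr {S : Type} (x : FreeGroup S) : ZMod 2 :=
  Multiplicative.toAdd
    (FreeGroup.lift (fun _ : S => (Multiplicative.ofAdd 1 : Multiplicative (ZMod 2))) x)

/-- The ball of radius `n` in a free group. -/
def ballF (A : Type) [Fintype A] (n : ℕ) : Finset (FreeGroup A) :=
  Finset.univ.image fun x : Σ m : Fin (n + 1), Fin m → A × Bool => FreeGroup.mk (List.ofFn x.2)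

/-- A labelled core with a code and the set `Qp` of words readable in the core with its trees. -/
structure Cell (P : Prm) where
  V : Type
  fin : Fintype V
  τ : Fin P.j → Equiv.Perm V
  lab : V → Fin P.j → P.S
  W : Submodule (ZMod P.h) (V × Fin P.j → ZMod P.h)
  v0 : V
  R : ℕ
  Qp : Set (FreeGroup P.S)

attribute [instance] Cell.fin

variable {P : Prm}

instance Cell.nonempty (c : Cell P) : Nonempty c.V := ⟨c.v0⟩

namespace Cell

variable (c : Cell P)

/-- Piece length. -/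
def L : ℕ := c.R ^ 15
/-- Girth. -/
def g : ℕ := 10 ^ 4 * c.R ^ 15
/-- Depth of the trees. -/
def R2 : ℕ := c.R ^ 14
/-- A bound for every size of the cell. -/
def sz : ℕ := 2 * Fintype.card c.V * (2 * Fintype.card P.S + 1) ^ (c.R2 + 1)
/-- Overlap bound for lamp sets. -/
def θc : ℕ := (2 * P.j + 1) ^ (11 * c.L) * (2 * Fintype.card P.S + 1) ^ (c.R2 + 1)
/-- Distance of the code. -/
def gP : ℕ := Fintype.card c.V * P.j / 8
/-- A bound for the sizes of all smaller cells. -/
def δ0 : ℕ := Nat.log (2 * P.j + 1) c.R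

/-- The shadow of a word: the end point of its slot word. -/
def vx (x : FreeGroup P.S) : c.V := FreeGroup.lift (fun s => c.τ (P.slot s)) x c.v0

/-- Words readable in the core from the base vertex. -/
inductive Qc : FreeGroup P.S → Prop
  | one : Qc 1
  | fwd (x : FreeGroup P.S) (i : Fin P.j) :
      Qc x → Qc (FreeGroup.of (c.lab (c.τ i (c.vx x)) i) * x)
  | bwd (x : FreeGroup P.S) (i : Fin P.j) : Qc x → Qc ((FreeGroup.of (c.lab (c.vx x) i))⁻¹ * x)

/-- The vertex of the double cover reached by a word. -/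
def cp (x : FreeGroup P.S) : c.V × ZMod 2 := (c.vx x, pr x)

/-- Closed walks in the core. -/
def Pg : Subgroup (FreeGroup P.S) := Subgroup.closure {x | c.Qc x ∧ c.vx x = c.v0}

/-- Closed walks in the double cover. -/
def Kg : Subgroup (FreeGroup P.S) := Subgroup.closure {x | c.Qc x ∧ c.cp x = (c.v0, 0)}

/-- A word leading to a given vertex of the double cover. -/
def rp (d : c.V × ZMod 2) : FreeGroup P.S := Classical.epsilon fun x => c.Qc x ∧ c.cp x = d

/-- The conditions on one cell. -/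
structure OK : Prop where
  R_big : 1000 ≤ c.R
  S_le : Fintype.card P.S ≤ c.R
  h_le : P.h ≤ c.R
  j_le : 2 * P.j + 1 ≤ c.R
  card : Fintype.card c.V = (2 * P.j) ^ (4 * c.g)
  girth : Girth c.τ c.g
  gap : Gap c.τ (1 / 10 ^ 8)
  code : CodeOK c.W
  lab_slot : ∀ v i, P.slot (c.lab v i) = i
  sub : ∀ x, c.Qc x → x ∈ c.Qp
  conn : Conn c.Qp
  inv : ∀ x ∈ c.Qp, ∀ p, c.Qc p → c.vx p = c.v0 → x * p ∈ c.Qp
  depth : ∀ x ∈ c.Qp, ∃ y, c.Qc y ∧ nr (x * y⁻¹) ≤ c.R2
  indeg : ∀ x ∈ c.Qp, ∀ s s', (FreeGroup.of s)⁻¹ * x ∈ c.Qp → (FreeGroup.of s')⁻¹ * x ∈ c.Qp →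
    P.slot s = P.slot s' → s = s'
  pc2 : ∀ x x' a, c.Qc x → c.Qc x' → c.Qc (a * x) → c.Qc (a * x') → c.L ≤ nr a →
    c.vx x = c.vx x'

end Cell

/-- Admissible families of cells. -/
structure Adm (F : Set (Cell P)) : Prop where
  j_big : 1000 ≤ P.j
  prime : P.h.Prime
  ok : ∀ c ∈ F, c.OK
  inj : ∀ c ∈ F, ∀ c' ∈ F, c.R = c'.R → c = c'
  gap : ∀ c ∈ F, ∀ c' ∈ F, c.R < c'.R → (2 * P.j + 1) ^ c.sz ≤ c'.R
  pc1 : ∀ c ∈ F, ∀ c' ∈ F, c.R < c'.R → ∀ x x' a, c.Qc x → c.Qc (a * x) → x' ∈ c'.Qp →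
    a * x' ∈ c'.Qp → nr a < c.L

variable (F : Set (Cell P))

/-- The relators of `Γ`. -/
def KG : Subgroup (FreeGroup P.S) := Subgroup.normalClosure {x | ∃ c ∈ F, x ∈ c.Kg}

instance KG_normal : (KG F).Normal := Subgroup.normalClosure_normal

/-- The group `Γ`. -/
abbrev Gam : Type := FreeGroup P.S ⧸ KG F

/-- The quotient map to `Γ`. -/
def mkG : FreeGroup P.S →* Gam F := QuotientGroup.mk' (KG F)

/-- The word metric of `Γ`. -/
def dG (γ γ' : Gam F) : ℕ := sInf {n | ∃ a, nr a = n ∧ γ' = mkG F a * γ}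

/-- The vertices of the base copy of the core in `Γ`. -/
def pos (c : Cell P) (d : c.V × ZMod 2) : Gam F := mkG F (c.rp d)

/-- The tree geodesic from `x` to `x'` maps to a geodesic of `Γ`. -/
def Geo (x x' : FreeGroup P.S) : Prop := ∀ k ∈ KG F, nr (x * x'⁻¹) ≤ nr (x * (x' * k)⁻¹)

/-- The geodesic from `x` to `x'` runs for at least `n` steps in the translate by `δ` of a core. -/
def Run (c : Cell P) (δ x x' : FreeGroup P.S) (n : ℕ) : Prop :=
  ∃ y y', c.Qc (y * δ⁻¹) ∧ c.Qc (y' * δ⁻¹) ∧ n ≤ nr (y * y'⁻¹) ∧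
    nr (x * x'⁻¹) = nr (x * y⁻¹) + nr (y * y'⁻¹) + nr (y' * x'⁻¹)

/-- Lamps: directed edges, named by target and label. -/
abbrev Lm : Type := Gam F × P.S

/-- The edges of the translate by `δ` of a core with its trees. -/
def EP (c : Cell P) (δ : Gam F) : Set (Lm F) :=
  {e | ∃ x ∈ c.Qp, (FreeGroup.of e.2)⁻¹ * x ∈ c.Qp ∧ e.1 = mkG F x * δ}

/-- The pairs of lamps that do not commute. -/
def NC (e f : Lm F) : Prop :=
  (e.1 = f.1 ∧ P.slot e.2 = P.slot f.2) ∨
    ∃ c ∈ F, ∃ x x' δ, mkG F x = e.1 ∧ mkG F x' = f.1 ∧ Geo F x x' ∧ Run c δ x x' (10 * c.L) ∧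
      ¬ (e ∈ EP F c (mkG F δ) ∧ f ∈ EP F c (mkG F δ))

/-- The commutation graph. -/
def adj (e f : Lm F) : Prop := ¬ NC F e f

/-- The graph product of the lamp groups. -/
abbrev PP : Type := GP (adj F) (ZMod P.h)

/-- The lamp on a core edge, named by target, slot and sheet. -/
def ed (c : Cell P) (δ : Gam F) (e : (c.V × Fin P.j) × ZMod 2) : Lm F :=
  (pos F c (e.1.1, e.2) * δ, c.lab e.1.1 e.1.2)

/-- The product of a list of lamps. -/
def prodL (l : List (Lm F × ZMod P.h)) : PP F := (l.map fun e => lmp (adj F) e.1 e.2).prod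

/-- A configuration of lamps on the core edges. -/
def cwd (c : Cell P) (δ : Gam F) (a : (c.V × Fin P.j) × ZMod 2 → ZMod P.h) : PP F :=
  prodL F (Finset.univ.toList.map fun e => (ed F c δ e, a e))

/-- The code words on a copy of a core. -/
def WP (c : Cell P) (δ : Gam F) : Set (PP F) :=
  {x | ∃ a, (∀ e, (fun v => a (v, e)) ∈ c.W) ∧ x = cwd F c δ a}

/-- The relators of `N`. -/
def KP : Subgroup (PP F) := Subgroup.normalClosure {x | ∃ c ∈ F, ∃ δ, x ∈ WP F c δ}

instance KP_normal : (KP F).Normal := Subgroup.normalClosure_normal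

/-- The lamp group `N`. -/
abbrev NN : Type := PP F ⧸ KP F

/-- The quotient map to `N`. -/
def mkN : PP F →* NN F := QuotientGroup.mk' (KP F)

/-- A lamp in `N`. -/
def lampN (f : Lm F) (a : ZMod P.h) : NN F := mkN F (lmp (adj F) f a)

/-- The lamps of the base copy. -/
def As (c : Cell P) : Subgroup (NN F) := (Par (adj F) (ZMod P.h) (EP F c 1)).map (mkN F)

/-- The model of `G ⧸ A`. -/
abbrev Zm (c : Cell P) : Type := Gam F × (NN F ⧸ As F c)

/-- The class of an element of the graph product. -/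
def cls (c : Cell P) (x : PP F) : NN F ⧸ As F c := QuotientGroup.mk (mkN F x)

/-- The action of moves (`inl`) and lamp generators (`inr`) on the model. -/
def am (c : Cell P) : FreeGroup (P.S ⊕ P.S) →* Equiv.Perm (Zm F c) :=
  FreeGroup.lift (Sum.elim
    (fun s => Equiv.prodCongr (Equiv.mulLeft (mkG F (FreeGroup.of s))) (Equiv.refl _))
    (fun s => Equiv.prodCongrRight fun γ => MulAction.toPerm (lampN F (γ, s) 1)))

/-- `y` is a nearest point of the base core. -/
def NP (c : Cell P) (γ : Gam F) (y : c.V × ZMod 2) : Prop :=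
  ∀ y', dG F γ (pos F c y) ≤ dG F γ (pos F c y')

/-- `l` is a shortest list of lamps representing `x`. -/
def MW (c : Cell P) (x : NN F ⧸ As F c) (l : List (Lm F × ZMod P.h)) : Prop :=
  x = cls F c (prodL F l) ∧ ∀ l', x = cls F c (prodL F l') → l.length ≤ l'.length

/-- `y` is a location of `w`. -/
def LocP (c : Cell P) (w : Zm F c) (y : c.V × ZMod 2) : Prop :=
  (w.2 = cls F c 1 ∧ NP F c w.1 y) ∨ ∃ l e, MW F c w.2 (l ++ [e]) ∧ NP F c e.1.1 y

/-- The near set. -/
def NearP (c : Cell P) (w : Zm F c) : Prop :=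
  (∃ y, dG F w.1 (pos F c y) ≤ 4 * c.R ^ 3) ∧ ∃ l, w.2 = cls F c (prodL F l) ∧
    l.length ≤ 4 * c.R ^ 7 ∧ ∀ e ∈ l, dG F w.1 e.1.1 ≤ 3 * c.R ^ 3

/-- `γ` lies in the base copy of the core with its trees. -/
def InP (c : Cell P) (γ : Gam F) : Prop := ∃ x ∈ c.Qp, mkG F x = γ

/-- A shortest word leading from `γ` to the base copy with its trees. -/
def pw (c : Cell P) (γ : Gam F) : FreeGroup P.S :=
  Classical.epsilon fun a => InP F c (mkG F a * γ) ∧ ∀ a', InP F c (mkG F a' * γ) → nr a ≤ nr a'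

/-- The fine position: the root of the tree reached by `pw`. -/
def qf (c : Cell P) (w : Zm F c) : c.V × ZMod 2 :=
  Classical.epsilon fun y => ∃ x ∈ c.Qp, mkG F x = mkG F (pw F c w.1) * w.1 ∧
    ∃ z, c.Qc z ∧ c.cp z = y ∧ ∀ z', c.Qc z' → nr (x * z⁻¹) ≤ nr (x * z'⁻¹)

/-- The points reached from a core vertex by a short word. -/
def Uf (c : Cell P) (π : c.V × ZMod 2) (a : ℕ) : Finset (Zm F c) :=
  (ballF (P.S ⊕ P.S) (c.R ^ 11 + a)).image fun u => am F c u (pos F c π, cls F c 1)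

/-- The core of `c` is hidden from the elements of `Y`. -/
def Hid (c : Cell P) (Y : Finset (MonoidAlgebra ℂ (FreeGroup (P.S ⊕ P.S)))) : Prop :=
  ∀ y ∈ Y, ∀ Λ, FB (kr (am F c) y) Λ →
    HS (dbl c.τ) (qf F c) (Uf F c) (c.R ^ 4) (kr (am F c) y) Λ ((c.R : ℝ) ^ 18) ∧
    HS (dbl c.τ) (qf F c) (Uf F c) (c.R ^ 4) (fun w w' => kr (am F c) y w' w) Λ ((c.R : ℝ) ^ 18)

/-- Cells of the tree. -/
def TC : Type 1 :=
  {T : Cell P × Set (FreeGroup P.S) // T.1 ∈ F ∧ ∃ δ, T.2 = {x | T.1.Qc (x * δ⁻¹)}}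

/-- The translate by `δ` of the lifted core of `c`. -/
def tc (c : Cell P) (hc : c ∈ F) (δ : FreeGroup P.S) : TC F :=
  ⟨(c, {x | c.Qc (x * δ⁻¹)}), hc, δ, rfl⟩

/-- Cells of the graph product. -/
def PC : Type 1 :=
  {T : Cell P × Set (Lm F) × Set (PP F) // T.1 ∈ F ∧
    ∃ δ q, T.2.1 = EP F T.1 δ ∧ T.2.2 = pc (adj F) (EP F T.1 δ) q}

/-- The coset of the lamps of a copy. -/
def pcl (c : Cell P) (hc : c ∈ F) (δ : Gam F) (q : PP F) : PC F :=
  ⟨(c, EP F c δ, pc (adj F) (EP F c δ) q), hc, δ, q, rfl, rfl⟩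

/-! ### The concrete cells -/

/-- Labels: slot, two small cancellation letters, hidden index. -/
abbrev cprm (j h a b D : ℕ) [NeZero D] : Prm :=
  ⟨j, h, Fin j × (Fin a × Fin (2 * b)) × ZMod D, inferInstance, Prod.fst⟩

/-- A core before the hidden indices are chosen. -/
structure Core (j h a b : ℕ) where
  V : Type
  fin : Fintype V
  τ : Fin j → Equiv.Perm V
  lam : V → Fin j → Fin a × Fin (2 * b)
  W : Submodule (ZMod h) (V × Fin j → ZMod h)
  v0 : V
  R : ℕ

attribute [instance] Core.fin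

namespace Core

variable {j h a b D : ℕ} [NeZero D] (K : Core j h a b)

/-- The word spelled by a (true) address starting at the core vertex `y`. -/
def aw (t : List (AL j D) → Fin j → ZMod D) (y : K.V) :
    List (AL j D) → FreeGroup (cprm j h a b D).S
  | [] => 1
  | (i, some ι) :: w =>
      FreeGroup.of (i, K.lam (K.τ i (go K.τ (sl w) y)) i, ι + t w i) * aw t y w
  | (i, none) :: w =>
      (FreeGroup.of (i, K.lam (go K.τ (sl w) y) i, t ((i, none) :: w) i))⁻¹ * aw t y w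

/-- The word spelled by a hybrid address starting at the core vertex `y`. -/
def hw (t : List (AL j D) → Fin j → ZMod D) (y : K.V) :
    List (AL j D) → FreeGroup (cprm j h a b D).S
  | [] => 1
  | (i, some ι) :: w =>
      FreeGroup.of (i, K.lam (K.τ i (go K.τ (sl w) y)) i,
        if w.head? = some (i, none) then ι + t w i else ι) * hw t y w
  | (i, none) :: w =>
      (FreeGroup.of (i, K.lam (go K.τ (sl w) y) i, t ((i, none) :: w) i))⁻¹ * hw t y w

/-- The cell without trees. -/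
def cell0 (t : K.V → Om j D (K.R ^ 14)) : Cell (cprm j h a b D) :=
  ⟨K.V, K.fin, K.τ, fun v i => (i, K.lam v i, ext (t ((K.τ i)⁻¹ v)) [] i), K.W, K.v0, K.R, ∅⟩

/-- The cell with its trees: a tree address leaves the core at once. -/
def cell (t : K.V → Om j D (K.R ^ 14)) : Cell (cprm j h a b D) :=
  { K.cell0 t with
    Qp := {z | ∃ x w, (K.cell0 t).Qc x ∧ AV (K.R ^ 14) w ∧
      (∀ l ∈ w.getLast?, l.2 ≠ none ∧ l.2 ≠ some 0) ∧
      z = K.aw (ext (t ((K.cell0 t).vx x))) ((K.cell0 t).vx x) w * x} }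

end Core

end Pool.Agent.P.MP_9167e9_an
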