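import Pool.Agent.P.MP_9167e9_an.Stm

/-!
Working forms of the algebras, as subrings.
-/

noncomputable section
open scoped ENNReal

namespace Pool.Agent.P.MP_9167e9_an

variable (G : Type) [Group G] (p : ℝ≥0∞) [Fact (1 ≤ p)]

/-- `B^p_r(G)`: the norm closure of the convolution operators in `B(ℓ^p G)`. -/
def Bp : Subring (Op G p) :=
  (Subring.closure {T | ∃ f : G →₀ ℂ, IsConv f T}).topologicalClosure

/-- `B^{p,*}_r(G)`: the closure of the pairs `(λ(f), λ(f^*))` in `B(ℓ^p G) × B(ℓ^p G)^op`, whose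
norm is `max (‖λ(f)‖, ‖λ(f^*)‖)`. -/
def BpStar : Subring (Op G p × (Op G p)ᵐᵒᵖ) :=
  (Subring.closure
    {z | ∃ f : G →₀ ℂ, IsConv f z.1 ∧ IsConv (invol f) z.2.unop}).topologicalClosure

theorem fst_mem (z : BpStar G p) : z.1.1 ∈ Bp G p := by
  have h : Subring.closure {z : Op G p × (Op G p)ᵐᵒᵖ |
      ∃ f : G →₀ ℂ, IsConv f z.1 ∧ IsConv (invol f) z.2.unop} ≤
      (Subring.closure {T | ∃ f : G →₀ ℂ, IsConv f T}).comap (RingHom.fst _ _) :=
    Subring.closure_le.2 fun z ⟨f, h, _⟩ => Subring.subset_closure ⟨f, h⟩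
  exact map_mem_closure continuous_fst z.2 fun y hy => h hy

/-- The canonical morphism `ι_p : B^{p,*}_r(G) → B^p_r(G)`. -/
def iota : BpStar G p →+* Bp G p :=
  ((RingHom.fst _ _).comp (BpStar G p).subtype).codRestrict (Bp G p) (fst_mem G p)

/-- The final statement. -/
def Main : Prop :=
  ∃ (G : Type) (_ : Group G) (p : ℝ≥0∞) (_ : Fact (1 ≤ p)), 2 ≤ p ∧ p ≠ ∞ ∧
    ¬ Function.Surjective (K0.map (iota G p))

end Pool.Agent.P.MP_9167e9_an
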