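import Pool.Agent.P.MP_9167e9_an.Defs

/-!
Interfaces of the analytic modules DET, FAR, NEAR, PROB, SPEC.
Words are lists whose HEAD is the LAST step (they multiply like `FreeGroup.mk`).
-/

noncomputable section
open scoped ENNReal Classical

namespace Pool.Agent.P.MP_9167e9_an

/-- Word length in a free group (with the classical decidability instance fixed once). -/
def nr {A : Type} (f : FreeGroup A) : ℕ := @FreeGroup.norm A (Classical.decEq A) f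

/-- Squared norm of `ξ` on a finite set. -/
def nsq {Z : Type} (s : Finset Z) (ξ : Z → ℂ) : ℝ := ∑ w ∈ s, ‖ξ w‖ ^ 2

/-- The kernel `X` is bounded by `Λ` on `ℓ²`. -/
def FB {Z : Type} (X : Z → Z → ℂ) (Λ : ℝ) : Prop :=
  ∀ (s t : Finset Z) (ξ ζ : Z → ℂ),
    ‖∑ w ∈ s, ∑ w' ∈ t, ξ w * X w w' * ζ w'‖ ≤ Λ * √(nsq s ξ) * √(nsq t ζ)

/-- The kernel of a group ring element acting on a set. -/
def kr {L Z : Type} [Group L] (α : L →* Equiv.Perm Z) (y : MonoidAlgebra ℂ L) (w w' : Z) : ℂ :=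
  y.coeff.sum fun f c => if α f w' = w then c else 0

/-- The kernel `X` twisted by the phase `exp (i φ H)`. -/
def tw {Z : Type} (H : Z → Z → ℤ) (φ : ℝ) (X : Z → Z → ℂ) (w w' : Z) : ℂ :=
  X w w' * Complex.exp ((φ * H w' w : ℝ) * Complex.I)

/-- `w'` is reached from `w` by a word of length at most `r`. -/
def Cl {Gen Z : Type} (α : FreeGroup Gen →* Equiv.Perm Z) (r : ℕ) (w w' : Z) : Prop :=
  ∃ f : FreeGroup Gen, nr f ≤ r ∧ α f w = w'

/-- The action of the free group on `G ⧸ A`. -/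
def actQ {L G : Type} [Group L] [Group G] (ρ : L →* G) (A : Subgroup G) :
    L →* Equiv.Perm (G ⧸ A) :=
  (MulAction.toPermHom G (G ⧸ A)).comp ρ

/-! ### DET -/

/-- Location data: a coarse equivariant map from `Z` to a finite set with local heights. -/
structure Loc {Gen Z : Type} (α : FreeGroup Gen →* Equiv.Perm Z) (io : Z → Z) (R : ℕ) where
  C : Type
  fin : Finite C
  dC : C → C → ℕ
  Ht : C → C → ℤ
  par : C → ZMod 2
  ic : C → C
  θ : ℕ
  p : Z → C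
  d_self : ∀ a, dC a a = 0
  d_symm : ∀ a b, dC a b = dC b a
  d_tri : ∀ a b c, dC a c ≤ dC a b + dC b c
  Ht_add : ∀ a b c, dC a b ≤ 4 * θ → dC b c ≤ 4 * θ → Ht a b + Ht b c = Ht a c
  Ht_par : ∀ a b, dC a b ≤ 4 * θ → (Ht a b : ZMod 2) = par b - par a
  ic_ic : ∀ a, ic (ic a) = a
  d_ic : ∀ a b, dC (ic a) (ic b) = dC a b
  Ht_ic : ∀ a b, Ht (ic a) (ic b) = Ht a b
  par_ic : ∀ a, par (ic a) = par a + 1
  p_io : ∀ w, p (io w) = ic (p w)
  lip : ∀ w w', Cl α (2 * R) w w' → dC (p w) (p w') ≤ θ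
  contr : ∀ r, {w | ∃ w', Cl α r w w' ∧ θ < dC (p w) (p w')}.Finite
  far : ∀ a, ∃ w, θ < dC (p w) a

/-- Convolution by the image of `x` is within `ε` of the averaging operator over the blocks. -/
def Close {L G : Type} [Group L] [Group G] (p : ℝ≥0∞) [Fact (1 ≤ p)] (ρ : L →* G)
    (x : MonoidAlgebra ℂ L) (blk : G → Finset G) (ε : ℝ) : Prop :=
  ∀ T E : Op G p, IsConv (x.coeff.mapDomain ρ) T →
    (∀ (ξ : Lq G p) (g : G), E ξ g = (∑ g' ∈ blk g, ξ g') / (blk g).card) → ‖T - E‖ ≤ ε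

/-- All that the detection argument needs from one stage of the construction. -/
structure Stage {Gen G : Type} [Group G] (p : ℝ≥0∞) [Fact (1 ≤ p)] (ρ : FreeGroup Gen →* G)
    (x : MonoidAlgebra ℂ (FreeGroup Gen)) (R : ℕ)
    (Y : Finset (MonoidAlgebra ℂ (FreeGroup Gen))) (Cn : ℝ) where
  A : Subgroup G
  finA : Finite A
  ι : G
  nrm : ∀ a ∈ A, ι⁻¹ * a * ι ∈ A
  sq : ι * ι ∈ A
  io : G ⧸ A → G ⧸ A
  io_mk : ∀ g : G, io (g : G ⧸ A) = ((g * ι : G) : G ⧸ A)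
  blk : G → Finset G
  blk_eq : ∀ g g', g' ∈ blk g → blk g' = blk g
  blk_self : ∀ g g', g' ∈ blk g → g ∈ blk g
  blk_A : ∀ a ∈ A, ∀ g g', g' ∈ blk g → g' * a ∈ blk (g * a)
  blk_ι : ∀ g g', g' ∈ blk g → g' * ι ∈ blk (g * ι)
  blk_one : ι ∈ blk 1
  close : Close p ρ x blk (1 / 10 ^ 6)
  loc : Loc (actQ ρ A) io R
  twist : ∀ y ∈ Y, ∀ Λ : ℝ, FB (kr (actQ ρ A) y) Λ → ∀ φ : ℝ,
    FB (tw (fun w w' => loc.Ht (loc.p w) (loc.p w')) φ (kr (actQ ρ A) y)) (Cn * Λ)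

/-- The construction: for every choice of test families there is a group with all stages. -/
def Con (Gen : Type) (p : ℝ≥0∞) [Fact (1 ≤ p)] (x : MonoidAlgebra ℂ (FreeGroup Gen)) : Prop :=
  ∀ Y : ℕ → ℕ → Finset (MonoidAlgebra ℂ (FreeGroup Gen)), (∀ n r, (Y n r).card ≤ n + 1) →
    (∀ n r, ∀ y ∈ Y n r, ∀ f ∈ y.coeff.support, nr f ≤ r) →
    ∃ (G : Type) (_ : Group G) (ρ : FreeGroup Gen →* G) (R : ℕ → ℕ), Function.Surjective ρ ∧
      ∀ n, 4 * (n + 1) ≤ R n ∧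
        Nonempty (Stage p ρ x (R n) (Y n (R n)) (Real.exp (R n / (n + 1) ^ 2)))

def StDet : Prop :=
  ∀ (Gen : Type) [Fintype Gen] (p : ℝ≥0∞) [Fact (1 ≤ p)] (x : MonoidAlgebra ℂ (FreeGroup Gen)),
    2 ≤ p → p ≠ ∞ → Con Gen p x → Main

/-! ### FAR -/

def StFar : Prop :=
  ∀ (Gen Z C Y : Type) [Fintype Gen] (α : FreeGroup Gen →* Equiv.Perm Z) (dC : C → C → ℕ)
    (Ht : C → C → ℤ) (θ : ℕ) (p : Z → C) (A : Z → Finset Y) (c : Y → ℝ) (Far : Set Z)
    (R L M0 : ℕ) (η ε : ℝ) (X : Z → Z → ℂ) (Λ φ : ℝ),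
    (∀ a b e, dC a b ≤ θ → dC b e ≤ θ → Ht a b + Ht b e = Ht a e) →
    (∀ y, 0 ≤ c y) → (∀ y w w', y ∈ A w → y ∈ A w' → dC (p w) (p w') ≤ θ) →
    0 < η → η ≤ 1 / 100 → 0 ≤ ε → ε * R ≤ η →
    (10 * η) ^ M0 * (2 * Fintype.card Gen + 1 : ℝ) ^ R ≤ 1 →
    (∀ w ∈ Far, ∃ M : ℝ, 0 < M ∧
      (∀ w', Cl α R w w' → ∑ y ∈ A w \ A w', c y + ∑ y ∈ A w' \ A w, c y ≤ M) ∧
      ((∃ y l, l ≤ L ∧ (∀ w', Cl α l w w' → y ∈ A w') ∧ M ≤ η * c y * Real.exp (ε * l)) ∨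
        M ≤ η * ∑ y ∈ A w, c y)) →
    (∀ w w', X w w' ≠ 0 → Cl α R w w') → FB X Λ →
    FB (fun w w' => if w ∈ Far ∨ w' ∈ Far then tw (fun a b => Ht (p a) (p b)) φ X w w' else 0)
      (2 ^ (M0 + 1) * Λ)

/-! ### NEAR -/

/-- A step along slot `i`, forwards (`true`) or backwards. -/
abbrev Lt (j : ℕ) : Type := Fin j × Bool

/-- The end point of the walk `u` from `x`. -/
def go {j : ℕ} {C : Type} (τ : Fin j → Equiv.Perm C) (u : List (Lt j)) (x : C) : C :=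
  u.foldr (fun l y => if l.2 then τ l.1 y else (τ l.1)⁻¹ y) x

/-- Forward steps minus backward steps. -/
def hts {A : Type} (u : List (A × Bool)) : ℤ := (u.map fun l => if l.2 then (1 : ℤ) else -1).sum

/-- All slot words of length `n`. -/
def wds (j n : ℕ) : Finset (List (Lt j)) :=
  Finset.univ.image fun f : Fin n → Lt j => List.ofFn f

/-- Every vector on `F` is, towards each `B v`, almost equal to a vector `ξ' v`, and the `ξ' v` have
total squared norm at most `s`. -/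
def Spl {Z ι : Type} (X : Z → Z → ℂ) (Λ s η : ℝ) (F : Finset Z) (I : Finset ι)
    (B : ι → Finset Z) : Prop :=
  ∀ ξ : Z → ℂ, ∃ ξ' : ι → Z → ℂ, ∑ v ∈ I, nsq F (ξ' v) ≤ s * nsq F ξ ∧
    ∀ v ∈ I, ∀ ζ : Z → ℂ, ‖∑ w ∈ F, ∑ w' ∈ B v, (ξ w - ξ' v w) * X w w' * ζ w'‖ ≤
      η * Λ * √(nsq F ξ) * √(nsq (B v) ζ)

/-- The index words of a splitting step. -/
def idx (j r : ℕ) (l : Option (Lt j)) : Finset (List (Lt j)) :=
  (wds j (r - r / 2)).filter fun v => FreeGroup.IsReduced (v ++ l.toList)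

/-- The points lying `a` steps behind `π`, the last step being `l`. -/
def Fib {j : ℕ} {C Z : Type} (τ : Fin j → Equiv.Perm C) (q : Z → C) (U : C → ℕ → Finset Z)
    (π : C) (a : ℕ) (l : Option (Lt j)) : Finset Z :=
  (U π a).filter fun w => ∃ v, FreeGroup.IsReduced v ∧ v.length = a ∧ v.head? = l ∧
    go τ v (q w) = π

/-- The points lying beyond `v` and then `r` steps of height at least zero, seen from `π`. -/
def Bey {j : ℕ} {C Z : Type} (τ : Fin j → Equiv.Perm C) (q : Z → C) (U : C → ℕ → Finset Z)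
    (R : ℕ) (π : C) (r : ℕ) (v : List (Lt j)) : Finset Z :=
  (U π R).filter fun w => ∃ u y, u.length = r ∧ 0 ≤ hts u ∧ (y ++ u ++ v).length ≤ R ∧
    FreeGroup.IsReduced (y ++ u ++ v) ∧ q w = go τ (y ++ u ++ v) π

/-- The hidden splitting property. -/
def HS {j : ℕ} {C Z : Type} (τ : Fin j → Equiv.Perm C) (q : Z → C) (U : C → ℕ → Finset Z)
    (R : ℕ) (X : Z → Z → ℂ) (Λ s : ℝ) : Prop :=
  ∀ π a l r, 2 ≤ r → a + r ≤ R →
    Spl X Λ s (((2 * j : ℝ) ^ (2 * r))⁻¹) (Fib τ q U π a l) (idx j r l) (Bey τ q U R π (r / 2))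

def StNear : Prop :=
  ∀ (j : ℕ) (C Z : Type) [Finite C] (τ : Fin j → Equiv.Perm C) (q : Z → C)
    (U : C → ℕ → Finset Z) (R : ℕ) (Near : Set Z) (H : C → C → ℤ) (X : Z → Z → ℂ) (Λ s φ : ℝ),
    1 ≤ j →
    (∀ x u u', FreeGroup.IsReduced u → FreeGroup.IsReduced u' → u.length ≤ R → u'.length ≤ R →
      go τ u x = go τ u' x → u = u') →
    (∀ x u, FreeGroup.IsReduced u → u.length ≤ R → H x (go τ u x) = hts u) →
    (∀ w ∈ Near, w ∈ U (q w) 0) → (∀ π a l, U π a ⊆ U (go τ [l] π) (a + 1)) →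
    (∀ π a, U π a ⊆ U π (a + 1)) →
    (∀ w ∈ Near, ∀ w' ∈ Near, X w w' ≠ 0 →
      ∃ u, FreeGroup.IsReduced u ∧ u.length ≤ R ∧ go τ u (q w) = q w') →
    FB X Λ → 2 * j ≤ s → HS τ q U R X Λ s → HS τ q U R (fun w w' => X w' w) Λ s →
    FB (fun w w' => if w ∈ Near ∧ w' ∈ Near then tw (fun a b => H (q a) (q b)) φ X w w' else 0)
      (((2 * j + 1) * (R + 1) * (s + 1)) ^ (2 * Nat.log 2 R + 6) * Λ)

/-! ### PROB -/

/-- Address letters: `(i, some t)` leaves along an outgoing edge of slot `i` with index `t`,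
`(i, none)` goes back along the incoming edge of slot `i`. -/
abbrev AL (j D : ℕ) : Type := Fin j × Option (ZMod D)

/-- The letter `a` may follow the letter `b`. -/
def AOk {j D : ℕ} (a b : AL j D) : Prop :=
  a.1 = b.1 → (a.2 = none → b.2 = none) ∧ (b.2 = none → a.2 ≠ some 0)

/-- Valid addresses of length at most `ρ`. -/
def AV {j D : ℕ} (ρ : ℕ) (w : List (AL j D)) : Prop := w.IsChain AOk ∧ w.length ≤ ρ

/-- Local labellings. -/
abbrev Om (j D ρ : ℕ) : Type := {w : List (AL j D) // AV ρ w} × Fin j → ZMod D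

/-- A local labelling as a total function. -/
def ext {j D ρ : ℕ} (t : Om j D ρ) (w : List (AL j D)) (i : Fin j) : ZMod D :=
  if h : AV ρ w then t (⟨w, h⟩, i) else 0

/-- The slot word of an address. -/
def sl {j D : ℕ} (w : List (AL j D)) : List (Lt j) := w.map fun a => (a.1, a.2.isSome)

/-- The (hybrid) address runs in the core. -/
def IsCore {j D : ℕ} (t : List (AL j D) → Fin j → ZMod D) : List (AL j D) → Prop
  | [] => True
  | (_, none) :: w => IsCore t w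
  | (i, some a) :: w => IsCore t w ∧ w.head? ≠ some (i, none) ∧ a = t w i

/-- The part of an address that runs in the core. -/
def root {j D : ℕ} (t : List (AL j D) → Fin j → ZMod D) : List (AL j D) → List (AL j D)
  | [] => []
  | a :: w => if IsCore t (a :: w) then a :: w else root t w

/-- Two local labellings have the same visible part. -/
def VisEq {j D ρ : ℕ} (t t' : Om j D ρ) : Prop :=
  ∀ w i, w.1.head? = some (i, none) → t (w, i) = t' (w, i)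

/-- The hidden splitting property in local coordinates. -/
def LSpl {j D ρ : ℕ} {W : Type} [Fintype W] (t : Om j D ρ) (X : W → W → ℂ)
    (pos : W → List (AL j D)) (inU : ℕ → W → Prop) (R a : ℕ) (l : Option (Lt j)) (r : ℕ)
    (s : ℝ) : Prop :=
  ∀ Λ, FB X Λ → Spl X Λ s (((2 * j : ℝ) ^ (2 * r))⁻¹)
    (Finset.univ.filter fun u => inU a u ∧ ∃ v, FreeGroup.IsReduced v ∧ v.length = a ∧
      v.head? = l ∧ sl (root (ext t) (pos u)) = FreeGroup.invRev v)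
    (idx j r l)
    (fun v => Finset.univ.filter fun u => inU R u ∧ ∃ u' y, u'.length = r / 2 ∧ 0 ≤ hts u' ∧
      sl (root (ext t) (pos u)) = y ++ u' ++ v)

def StProb : Prop :=
  ∀ (j D ρ : ℕ) (W : Type) [Fintype W] (X : Om j D ρ → W → W → ℂ)
    (pos : Om j D ρ → W → List (AL j D)) (inU : Om j D ρ → ℕ → W → Prop)
    (R a : ℕ) (l : Option (Lt j)) (r m : ℕ) (s : ℝ),
    1 ≤ j → (2 * j) ^ 36 ≤ D → 2 ≤ r → 1 ≤ m → 0 < s →
    (∀ t t', VisEq t t' → X t = X t' ∧ pos t = pos t' ∧ inU t = inU t') →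
    (∀ t u, AV ρ (pos t u)) →
    (Nat.card {t : Om j D ρ // ¬ LSpl t (X t) (pos t) (inU t) R a l r s} : ℝ) * s ^ m ≤
      Nat.card (Om j D ρ) * (Fintype.card W * m ^ (m + 1))

/-! ### SPEC -/

/-- Spectral gap of the directed averaging operator. -/
def Gap {j : ℕ} {V : Type} [Fintype V] (τ : Fin j → Equiv.Perm V) (c : ℝ) : Prop :=
  ∀ ξ : V → ℝ, ∑ v, ξ v = 0 →
    ∑ v, ((∑ i, ξ ((τ i)⁻¹ v)) / j) ^ 2 ≤ (1 - c) ^ 2 * ∑ v, ξ v ^ 2

/-- A linear code whose distance and dual distance are at least an eighth of the length. -/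
def CodeOK {E : Type} [Fintype E] {h : ℕ} (W : Submodule (ZMod h) (E → ZMod h)) : Prop :=
  (∀ w ∈ W, w ≠ 0 → Fintype.card E ≤ 8 * hammingNorm w) ∧
    ∀ u : E → ZMod h, (∀ w ∈ W, u ⬝ᵥ w = 0) → u ≠ 0 → Fintype.card E ≤ 8 * hammingNorm u

/-- The element `a = ∑_s e_{H_s} u_s`; `inl s` is the move, `inr s` the lamp generator. -/
def aF (S : Type) [Fintype S] (h : ℕ) : MonoidAlgebra ℂ (FreeGroup (S ⊕ S)) :=
  ∑ s : S, ∑ t ∈ Finset.range h,
    MonoidAlgebra.single (FreeGroup.of (Sum.inr s) ^ t * FreeGroup.of (Sum.inl s)) (1 / h : ℂ)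

/-- The almost idempotent element `((a/j)^T + (a/j)^(T+1)) / 2`. -/
def xF (S : Type) [Fintype S] (h j T : ℕ) : MonoidAlgebra ℂ (FreeGroup (S ⊕ S)) :=
  (1 / 2 : ℂ) • (((1 / j : ℂ) • aF S h) ^ T + ((1 / j : ℂ) • aF S h) ^ (T + 1))

/-- One block: a copy of the parity double cover of an expander, with its lamp group. -/
structure Blk {j h : ℕ} {S Γ N : Type} [Group N] (slot : S → Fin j) (mv : S → Equiv.Perm Γ)
    (lamp : Γ → S → Multiplicative (ZMod h) →* N) (c : ℝ) (B : ℕ) where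
  V : Type
  fin : Fintype V
  τ : Fin j → Equiv.Perm V
  gap : Gap τ c
  W : Submodule (ZMod h) (V × Fin j → ZMod h)
  code : CodeOK W
  pos : V × ZMod 2 → Γ
  pos_inj : Function.Injective pos
  lab : V → Fin j → S
  lab_slot : ∀ v i, slot (lab v i) = i
  pos_mv : ∀ v i e, mv (lab v i) (pos ((τ i)⁻¹ v, e + 1)) = pos (v, e)
  ψ : Multiplicative ((V × Fin j) × ZMod 2 → ZMod h) →* N
  ψ_single : ∀ v i e t, ψ (Multiplicative.ofAdd (Pi.single ((v, i), e) t)) =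
    lamp (pos (v, e)) (lab v i) (Multiplicative.ofAdd t)
  ψ_ker : ∀ a, ψ (Multiplicative.ofAdd a) = 1 ↔ ∀ e, (fun x => a (x, e)) ∈ W
  De : Set (V × ZMod 2)
  De_big : B * Nat.card {d // d ∉ De} ≤ Nat.card V

def StSpec : Prop :=
  ∀ (p : ℝ≥0∞) [Fact (1 ≤ p)] (c ε : ℝ), 2 ≤ p → p ≠ ∞ → 0 < c → c ≤ 1 → 0 < ε →
    ∃ T B j0 : ℕ, ∀ (j h : ℕ) (S Γ N G : Type) [Fintype S] [Group N] [Group G]
      (slot : S → Fin j) (mv : S → Equiv.Perm Γ) (lamp : Γ → S → Multiplicative (ZMod h) →* N)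
      (ρ : FreeGroup (S ⊕ S) →* G) (e : G ≃ Γ × N) (I : Type) (b : I → Blk slot mv lamp c B)
      (par : Γ → Option (Γ × S)) (blk : G → Finset G),
      j0 ≤ j → h.Prime → (Fintype.card S : ℝ) ^ 2 ≤ (j : ℝ) ^ p.toReal →
      (Fintype.card S : ℝ) ^ p.toReal ≤ h →
      (∀ s g, e (ρ (FreeGroup.of (Sum.inl s)) * g) = (mv s (e g).1, (e g).2)) →
      (∀ s g, e (ρ (FreeGroup.of (Sum.inr s)) * g) =
        ((e g).1, lamp (e g).1 s (Multiplicative.ofAdd 1) * (e g).2)) →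
      (∀ γ i, ∃ Par : S → Set N,
        (∀ s n t, slot s = i → n ∈ Par s → lamp γ s t * n ∈ Par s → t = 1) ∧
        ∀ n s s', slot s = i → slot s' = i → n ∉ Par s → n ∉ Par s' → s = s') →
      (∀ β β' d d', d ∈ (b β).De → d' ∈ (b β').De → (b β).pos d = (b β').pos d' → β = β') →
      (∀ γ s, (∃ β v i x, (v, x) ∈ (b β).De ∧ (((b β).τ i)⁻¹ v, x + 1) ∈ (b β).De ∧
          γ = (b β).pos (v, x) ∧ s = (b β).lab v i) ∨
        par γ = some (γ, s) ∨ par ((mv s)⁻¹ γ) = some (γ, s)) →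
      (∀ g g', g' ∈ blk g ↔ ∃ β, ∃ d ∈ (b β).De, ∃ d' ∈ (b β).De, (e g).1 = (b β).pos d ∧
        (e g').1 = (b β).pos d' ∧ ∃ a, (e g').2 = (b β).ψ a * (e g).2) →
      Close p ρ (xF S h j T) blk ε

end Pool.Agent.P.MP_9167e9_an
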