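import Pool.Agent.P.MP_9167e9_an.DefG

/-! Interfaces of the geometric modules. -/

noncomputable section
open scoped Classical ENNReal

namespace Pool.Agent.P.MP_9167e9_an

/-! ### HT: the double cover of a core -/

structure HtOut {j : ℕ} {V : Type} (τ : Fin j → Equiv.Perm V) (g : ℕ) : Prop where
  conn : ∀ a b, ∃ u, FreeGroup.IsReduced u ∧ u.length = dC τ a b ∧ go (dbl τ) u a = b
  d_le : ∀ a u, dC τ a (go (dbl τ) u a) ≤ u.length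
  d_self : ∀ a, dC τ a a = 0
  d_zero : ∀ a b, dC τ a b = 0 → a = b
  d_symm : ∀ a b, dC τ a b = dC τ b a
  d_tri : ∀ a b e, dC τ a e ≤ dC τ a b + dC τ b e
  d_lt : ∀ a b, dC τ a b < 2 * Nat.card V
  inj : ∀ a u u', FreeGroup.IsReduced u → FreeGroup.IsReduced u' → u.length + u'.length < g →
    go (dbl τ) u a = go (dbl τ) u' a → u = u'
  word : ∀ a u, FreeGroup.IsReduced u → 2 * u.length < g →
    dC τ a (go (dbl τ) u a) = u.length ∧ HtC τ a (go (dbl τ) u a) = hts u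
  add : ∀ a b e, 2 * (dC τ a b + dC τ b e) < g → HtC τ a b + HtC τ b e = HtC τ a e
  par : ∀ a b, (HtC τ a b : ZMod 2) = b.2 - a.2
  d_ic : ∀ a b, dC τ (a.1, a.2 + 1) (b.1, b.2 + 1) = dC τ a b
  Ht_ic : ∀ a b, HtC τ (a.1, a.2 + 1) (b.1, b.2 + 1) = HtC τ a b
  ball : ∀ a n, {b | dC τ a b ≤ n}.ncard ≤ (2 * j + 1) ^ n
  far : ∀ a n, 2 * n < g → ∃ b, dC τ a b = n

def StHt : Prop :=
  ∀ (j g : ℕ) (V : Type) [Fintype V] (τ : Fin j → Equiv.Perm V) (c : ℝ), 1 ≤ j → 0 < c → c ≤ 1 →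
    Girth τ g → Gap τ c → HtOut τ g

def StBall : Prop :=
  ∀ (A : Type) [Fintype A] (n : ℕ), (∀ f, f ∈ ballF A n ↔ nr f ≤ n) ∧
    (ballF A n).card ≤ (2 * Fintype.card A + 1) ^ n

variable {P : Prm}

/-! ### BAS: one cell -/

structure BasOut (c : Cell P) : Prop where
  conn : Conn {x | c.Qc x}
  div : ∀ x z, c.Qc x → c.Qc z → c.vx x = c.vx z → c.Qc (x⁻¹ * z) ∧ c.vx (x⁻¹ * z) = c.v0
  mulP : ∀ x p, c.Qc x → c.Qc p → c.vx p = c.v0 → c.Qc (x * p)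
  vx_mul : ∀ x p, c.vx p = c.v0 → c.vx (x * p) = c.vx x
  pr_mul : ∀ x y : FreeGroup P.S, pr (x * y) = pr x + pr y
  memP : ∀ x, x ∈ c.Pg ↔ c.Qc x ∧ c.vx x = c.v0
  memK : ∀ x, x ∈ c.Kg ↔ c.Qc x ∧ c.cp x = (c.v0, 0)
  conjK : ∀ p ∈ c.Pg, ∀ k ∈ c.Kg, p⁻¹ * k * p ∈ c.Kg
  rp : ∀ d, c.Qc (c.rp d) ∧ c.cp (c.rp d) = d
  cp_eq : ∀ x z, c.Qc x → c.Qc z → (c.cp x = c.cp z ↔ x⁻¹ * z ∈ c.Kg)
  edge : ∀ x s, c.Qc x → c.Qc (FreeGroup.of s * x) →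
    s = c.lab (c.vx (FreeGroup.of s * x)) (P.slot s) ∧
      c.cp (FreeGroup.of s * x) = dbl c.τ (P.slot s) (c.cp x)
  walk : ∀ x u, c.Qc x → FreeGroup.IsReduced u →
    ∃ a, nr a = u.length ∧ c.Qc (a * x) ∧ c.cp (a * x) = go (dbl c.τ) u (c.cp x)
  unwalk : ∀ x a, c.Qc x → c.Qc (a * x) → ∃ u, FreeGroup.IsReduced u ∧ u.length = nr a ∧
    c.cp (a * x) = go (dbl c.τ) u (c.cp x)
  disp : ∀ x, c.Qc x → ∀ p ∈ c.Pg, p ≠ 1 → c.g ≤ nr (x * (x * p)⁻¹)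
  cov : ∀ x z, c.Qc x → c.Qc z → ∃ k ∈ c.Kg, nr (x * (z * k)⁻¹) = dC c.τ (c.cp x) (c.cp z)
  covP : ∀ x ∈ c.Qp, ∀ z ∈ c.Qp, ∃ k ∈ c.Kg, nr (x * (z * k)⁻¹) ≤ c.sz
  iota : ∃ ι ∈ c.Pg, pr ι = 1
  same : ∀ δ δ', {x | c.Qc (x * δ⁻¹)} = {x | c.Qc (x * δ'⁻¹)} ↔ δ' * δ⁻¹ ∈ c.Pg
  ht : HtOut c.τ c.g

def StBas : Prop := ∀ (P : Prm) (c : Cell P), 1 ≤ P.j → c.OK → BasOut c

/-! ### NUM: numerical consequences of admissibility -/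

structure NumOut (c : Cell P) : Prop where
  δ0_le : c.δ0 ≤ c.R
  δ0_pow : (2 * P.j + 1) ^ c.δ0 ≤ c.R
  θc_pos : 1 ≤ c.θc
  θc_V : c.R * c.θc ≤ Fintype.card c.V
  θc_gP : 1000 * c.θc ≤ c.gP
  gP_big : c.g ^ 4 ≤ c.gP
  g_sz : c.g ≤ c.sz
  V_sz : 2 * Fintype.card c.V ≤ c.sz

structure NumAdm (F : Set (Cell P)) : Prop where
  one : ∀ c ∈ F, NumOut c
  small : ∀ c ∈ F, ∀ e ∈ F, e.R < c.R → e.sz ≤ c.δ0
  bigP : ∀ c ∈ F, ∀ e ∈ F, c.R ≤ e.R → c.g ^ 4 ≤ e.gP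
  fin : ∀ n, ∃ δ, ∀ e ∈ F, e.g ≤ n ∨ e.gP ≤ n → e.sz ≤ δ

def StNum : Prop := ∀ (P : Prm) (F : Set (Cell P)), Adm F → NumAdm F

/-! ### TW: the tree with its cells -/

structure TInst {F : Set (Cell P)} (w : WS (FreeGroup P.S) (FreeGroup P.S × P.S) (TC F)) :
    Prop where
  tree : TreeOut w.toPreWS
  pre : PreOut w.toPreWS
  out : WSOut w
  cell_eq : ∀ Q, w.cell Q = Q.1.2
  ac_eq : ∀ c hc δ x, w.ac (tc F c hc δ) x = tc F c hc (δ * x)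
  K_iff : ∀ c hc δ k, k ∈ w.K (tc F c hc δ) ↔ δ * k * δ⁻¹ ∈ c.Kg
  g_eq : ∀ Q, w.g Q = Q.1.1.g
  θ_eq : ∀ Q, w.θ Q = Q.1.1.L
  δ_eq : ∀ Q, w.δ Q = Q.1.1.sz
  KK_eq : w.KK = KG F

def StTW : Prop := ∀ (P : Prm) (F : Set (Cell P)), Adm F → ∃ w, TInst (F := F) w

/-! ### GAM1, GAM2: the geometry of `Γ` -/

structure Gam1 (F : Set (Cell P)) : Prop where
  dG_ex : ∀ γ γ', ∃ a, nr a = dG F γ γ' ∧ γ' = mkG F a * γ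
  dG_le : ∀ γ a, dG F γ (mkG F a * γ) ≤ nr a
  dG_symm : ∀ γ γ', dG F γ γ' = dG F γ' γ
  dG_tri : ∀ γ γ' γ'', dG F γ γ'' ≤ dG F γ γ' + dG F γ' γ''
  dG_mul : ∀ γ γ' δ, dG F (γ * δ) (γ' * δ) = dG F γ γ'
  geo_iff : ∀ x x', Geo F x x' ↔ nr (x * x'⁻¹) = dG F (mkG F x) (mkG F x')
  dehn : ∀ k ∈ KG F, k ≠ 1 → ∃ c ∈ F, ∃ δ, ∃ κ ∈ c.Kg, c.L ≤ nr k ∧ nr (k * (δ⁻¹ * κ * δ)) < nr k
  emb : ∀ c ∈ F, ∀ x ∈ c.Qp, ∀ x' ∈ c.Qp, ∀ k ∈ KG F, Geo F x (x' * k) → k ∈ c.Kg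
  iso : ∀ c ∈ F, ∀ x ∈ c.Qp, ∀ x' ∈ c.Qp, ∃ k ∈ c.Kg,
    nr (x * (x' * k)⁻¹) = dG F (mkG F x) (mkG F x')
  pos_cp : ∀ c ∈ F, ∀ x, c.Qc x → pos F c (c.cp x) = mkG F x
  pos_d : ∀ c ∈ F, ∀ a b, dG F (pos F c a) (pos F c b) = dC c.τ a b
  pos_mv : ∀ c ∈ F, ∀ v i e, mkG F (FreeGroup.of (c.lab v i)) * pos F c ((c.τ i)⁻¹ v, e + 1) =
    pos F c (v, e)
  pos_P : ∀ c ∈ F, ∀ p ∈ c.Pg, ∀ d, pos F c d * mkG F p = pos F c (d.1, d.2 + pr p)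
  adj_symm : ∀ e f, adj F e f → adj F f e
  adj_irr : ∀ e, ¬ adj F e e
  adj_mul : ∀ e f δ, adj F e f → adj F (e.1 * δ, e.2) (f.1 * δ, f.2)
  EP_mul : ∀ c δ δ' e, e ∈ EP F c δ ↔ (e.1 * δ', e.2) ∈ EP F c (δ * δ')
  EP_P : ∀ c ∈ F, ∀ p ∈ c.Pg, ∀ δ, EP F c (mkG F p * δ) = EP F c δ
  EP_fin : ∀ c ∈ F, ∀ δ, (EP F c δ).Finite ∧ (EP F c δ).ncard ≤ c.sz
  EP_diam : ∀ c ∈ F, ∀ δ, ∀ e ∈ EP F c δ, ∀ f ∈ EP F c δ, dG F e.1 f.1 ≤ c.sz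
  EP_slot : ∀ c ∈ F, ∀ δ γ s s', (γ, s) ∈ EP F c δ → (γ, s') ∈ EP F c δ →
    P.slot s = P.slot s' → s = s'
  ed_mem : ∀ c ∈ F, ∀ δ e, ed F c δ e ∈ EP F c δ
  ed_inj : ∀ c ∈ F, ∀ δ, Function.Injective (ed F c δ)
  clq : ∀ c ∈ F, ∀ δ, Clq (adj F) (EP F c δ)
  dich : ∀ c ∈ F, ∀ δ f, f ∉ EP F c δ → (EP F c δ ∩ star (adj F) f).ncard ≤ c.θc
  ovl : ∀ c ∈ F, ∀ c' ∈ F, ∀ δ δ', (c = c' ∧ ∃ p ∈ c.Pg, δ' = mkG F p * δ) ∨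
    (EP F c δ ∩ EP F c' δ').ncard ≤ c.θc

def StGam1 : Prop := ∀ (P : Prm) (F : Set (Cell P)), Adm F → Gam1 F

structure Gam2 (F : Set (Cell P)) (c : Cell P) : Prop where
  np_ex : ∀ γ, ∃ y, NP F c γ y
  np_pos : ∀ a y, NP F c (pos F c a) y → y = a
  np_P : ∀ p ∈ c.Pg, ∀ γ y, NP F c γ y → NP F c (γ * mkG F p) (y.1, y.2 + pr p)
  lip : ∀ γ γ' y y', dG F γ γ' ≤ c.R ^ 12 → NP F c γ y → NP F c γ' y' → dC c.τ y y' ≤ 2 * c.L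
  lemL : ∀ e f y y', e = f ∨ adj F e f → e ∉ EP F c 1 → NP F c e.1 y → NP F c f.1 y' →
    dC c.τ y y' ≤ 12 * c.L
  contr : ∀ r, ∃ D, ∀ γ γ' y y', D < dG F γ (pos F c y) → dG F γ γ' ≤ r → NP F c γ y →
    NP F c γ' y' → dC c.τ y y' ≤ c.L
  t12 : ∃ (Y : Type) (h2 : Gam F → Option Y) (z2 : Y → c.V × ZMod 2), ∀ γ,
    (∀ y, 4 * c.R ^ 3 < dG F γ (pos F c y)) →
    (∀ γ' y y', dG F γ γ' ≤ c.R ^ 2 → NP F c γ y → NP F c γ' y' → dC c.τ y y' ≤ c.δ0) ∨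
      ∃ T, (∀ γ', dG F γ γ' ≤ c.R ^ 2 → h2 γ' = some T) ∧
        ∀ y, NP F c γ y → dC c.τ y (z2 T) ≤ 6 * c.L

def StGam2 : Prop := ∀ (P : Prm) (F : Set (Cell P)), Adm F → ∀ c ∈ F, Gam2 F c

/-! ### DE: deep points and parent edges -/

structure DeOut (F : Set (Cell P)) (c : Cell P) (Deep : Cell P → Gam F → Gam F → Prop)
    (par : Gam F → Option (Lm F)) : Prop where
  mem : ∀ e δ γ, Deep e δ γ → e ∈ F ∧ ∃ d, γ = pos F e d * δ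
  inv : ∀ e, ∀ p ∈ e.Pg, ∀ δ γ, Deep e δ γ → Deep e (mkG F p * δ) γ
  equi : ∀ p ∈ c.Pg, ∀ e δ γ, Deep e δ γ → Deep e (δ * mkG F p) (γ * mkG F p)
  base : ∀ d, Deep c 1 (pos F c d)
  disj : ∀ e e' δ δ' γ, Deep e δ γ → Deep e' δ' γ → e = e' ∧ ∃ p ∈ e.Pg, δ' = mkG F p * δ
  small : ∀ e ∈ F, ∀ δ, {d | ¬ Deep e δ (pos F e d * δ)}.ncard ≤ e.θc
  parent : ∀ γ s, (∃ e δ v i x, Deep e δ (pos F e (v, x) * δ) ∧
      Deep e δ (pos F e ((e.τ i)⁻¹ v, x + 1) * δ) ∧ γ = pos F e (v, x) * δ ∧ s = e.lab v i) ∨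
    par γ = some (γ, s) ∨ par ((mkG F (FreeGroup.of s))⁻¹ * γ) = some (γ, s)

def StDe : Prop := ∀ (P : Prm) (F : Set (Cell P)), Adm F → ∀ c ∈ F, ∃ Deep par, DeOut F c Deep par

/-! ### PW, NF, GRP: the lamp group -/

structure PInst {F : Set (Cell P)}
    (w : WS (PP F) (Wall (adj F) (ZMod P.h)) (PC F)) : Prop where
  gp : GPOut (adj F) w.toPreWS
  pre : PreOut w.toPreWS
  out : WSOut w
  cell_eq : ∀ Q, w.cell Q = Q.1.2.2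
  ac_eq : ∀ c hc δ q x, w.ac (pcl F c hc δ q) x = pcl F c hc δ (q * x)
  K_iff : ∀ c hc δ q k, k ∈ w.K (pcl F c hc δ q) ↔ q * k * q⁻¹ ∈ WP F c δ
  g_eq : ∀ Q, w.g Q = Q.1.1.gP
  θ_eq : ∀ Q, w.θ Q = Q.1.1.θc
  δ_eq : ∀ Q, w.δ Q = Q.1.1.sz
  KK_eq : w.KK = KP F
  cwd_add : ∀ c ∈ F, ∀ δ a b, cwd F c δ (a + b) = cwd F c δ a * cwd F c δ b
  cwd_single : ∀ c ∈ F, ∀ δ e t, cwd F c δ (Pi.single e t) = lmp (adj F) (ed F c δ e) t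
  cwd_d : ∀ c ∈ F, ∀ δ a, w.d 1 (cwd F c δ a) = hammingNorm a
  WP_P : ∀ c ∈ F, ∀ p ∈ c.Pg, ∀ δ, WP F c (mkG F p * δ) = WP F c δ

def StPW : Prop := ∀ (P : Prm) (F : Set (Cell P)), Adm F → ∃ w, PInst (F := F) w

structure NFOut (F : Set (Cell P)) : Prop where
  lamp_add : ∀ f a b, lampN F f (a + b) = lampN F f a * lampN F f b
  free : ∀ γ i, ∃ Pa : P.S → Set (NN F),
    (∀ s n t, P.slot s = i → n ∈ Pa s → lampN F (γ, s) t * n ∈ Pa s → t = 0) ∧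
    ∀ n s s', P.slot s = i → P.slot s' = i → n ∉ Pa s → n ∉ Pa s' → s = s'
  ker : ∀ c ∈ F, ∀ δ a, mkN F (cwd F c δ a) = 1 ↔ ∀ e, (fun v => a (v, e)) ∈ c.W
  finA : ∀ c ∈ F, Finite (As F c)

def StNF : Prop := ∀ (P : Prm) (F : Set (Cell P)), Adm F → NFOut F

/-- The group `G = N ⋊ Γ` in the coordinates `g = γ n`. -/
structure GrpOut (F : Set (Cell P)) (G : Type) [Group G] (ρ : FreeGroup (P.S ⊕ P.S) →* G)
    (e : G ≃ Gam F × NN F) (Φ : Gam F → NN F →* NN F) : Prop where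
  surj : Function.Surjective ρ
  Φ_one : ∀ n, Φ 1 n = n
  Φ_mul : ∀ δ δ' n, Φ (δ * δ') n = Φ δ' (Φ δ n)
  Φ_lamp : ∀ δ f a, Φ δ (lampN F f a) = lampN F (f.1 * δ, f.2) a
  mul : ∀ g g', e (g * g') = ((e g).1 * (e g').1, Φ (e g').1 (e g).2 * (e g').2)
  inl : ∀ s, e (ρ (FreeGroup.of (Sum.inl s))) = (mkG F (FreeGroup.of s), 1)
  inr : ∀ s, e (ρ (FreeGroup.of (Sum.inr s))) = (1, lampN F (1, s) 1)

def StGrp : Prop := ∀ (P : Prm) (F : Set (Cell P)), Adm F →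
  ∃ (G : Type) (_ : Group G) (ρ : FreeGroup (P.S ⊕ P.S) →* G) (e : G ≃ Gam F × NN F)
    (Φ : Gam F → NN F →* NN F), GrpOut F G ρ e Φ

/-! ### LOCN, ANCH, NEARG: locations, anchors, near set -/

/-- Moves in the model lift to the graph product; shortest words are minimal lifts. -/
structure BrOut (F : Set (Cell P)) (c : Cell P) (hc : c ∈ F)
    (w : WS (PP F) (Wall (adj F) (ZMod P.h)) (PC F)) : Prop where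
  cls_surj : Function.Surjective (cls F c)
  cls_eq : ∀ x y, cls F c x = cls F c y ↔
    ∃ k ∈ KP F, ∃ b ∈ Par (adj F) (ZMod P.h) (EP F c 1), y = x * k * b
  ac_base : ∀ b ∈ Par (adj F) (ZMod P.h) (EP F c 1), w.ac (pcl F c hc 1 1) b = pcl F c hc 1 1
  move : ∀ t γ x z, Cl (am F c) t (γ, cls F c x) z → dG F γ z.1 ≤ t ∧
    ∃ y, z.2 = cls F c y ∧ w.d x y ≤ t ∧ ∀ a ∈ w.W x y, dG F γ a.1.1 ≤ t
  word : ∀ x, ∃ l, cls F c x = cls F c (prodL F l) ∧ l.length = (w.WB (pcl F c hc 1 1) x).card ∧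
    ∀ e ∈ l, ∃ a ∈ w.WB (pcl F c hc 1 1) x, a.1 = e.1
  mw_ex : ∀ z, ∃ l, MW F c z l
  mw_min : ∀ z l, MW F c z l → w.Min (pcl F c hc 1 1) (prodL F l) ∧
    (w.WB (pcl F c hc 1 1) (prodL F l)).card = l.length ∧
    ∀ l' e, l = l' ++ [e] → ∃ a ∈ w.Bot (pcl F c hc 1 1) (prodL F l), a.1 = e.1
  bot_out : ∀ x, ∀ a ∈ w.Bot (pcl F c hc 1 1) x, a.1 ∉ EP F c 1
  bot_adj : ∀ x, ∀ a ∈ w.Bot (pcl F c hc 1 1) x, ∀ a' ∈ w.Bot (pcl F c hc 1 1) x,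
    a = a' ∨ adj F a.1 a'.1
  good_base : ∀ x, w.Good (pcl F c hc 1 1) x → cls F c x = cls F c 1 →
    w.WB (pcl F c hc 1 1) x = ∅
  lemP : ∀ γ x y y', ∀ a ∈ w.Bot (pcl F c hc 1 1) x, w.Good (pcl F c hc 1 1) x →
    LocP F c (γ, cls F c x) y → NP F c a.1.1 y' → dC c.τ y y' ≤ 12 * c.L

def StBr : Prop := ∀ (P : Prm) (F : Set (Cell P)), Adm F → ∀ c (hc : c ∈ F) w,
  PInst (F := F) w → BrOut F c hc w

structure LocOut (F : Set (Cell P)) (c : Cell P) : Prop where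
  ex : ∀ z, ∃ y, LocP F c z y
  equi : ∀ p ∈ c.Pg, ∀ Φ : NN F →* NN F, Function.Bijective Φ →
    (∀ f a, Φ (lampN F f a) = lampN F (f.1 * mkG F p, f.2) a) → ∀ γ n y,
    LocP F c (γ, QuotientGroup.mk n) y →
    LocP F c (γ * mkG F p, QuotientGroup.mk (Φ n)) (y.1, y.2 + pr p)
  lip : ∀ z z' y y', Cl (am F c) (2 * c.R) z z' → LocP F c z y → LocP F c z' y' →
    dC c.τ y y' ≤ 100 * c.L
  contr : ∀ r, {z | ∃ z' y y', Cl (am F c) r z z' ∧ LocP F c z y ∧ LocP F c z' y' ∧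
    100 * c.L < dC c.τ y y'}.Finite
  base : ∀ a y, LocP F c (pos F c a, cls F c 1) y → y = a
  near : ∀ z y, NearP F c z → LocP F c z y → dC c.τ y (qf F c z) ≤ 100 * c.L

def StLocn : Prop := ∀ (P : Prm) (F : Set (Cell P)), Adm F → ∀ c ∈ F, LocOut F c

def StAnch : Prop := ∀ (P : Prm) (F : Set (Cell P)), Adm F → ∀ c ∈ F,
  ∀ p : Zm F c → c.V × ZMod 2, (∀ z, LocP F c z (p z)) →
  ∃ (Y : Type) (A : Zm F c → Finset Y) (wt : Y → ℝ), (∀ y, 0 ≤ wt y) ∧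
    (∀ y z z', y ∈ A z → y ∈ A z' → dC c.τ (p z) (p z') ≤ 400 * c.L) ∧
    ∀ z, ¬ NearP F c z →
      ((∀ z', Cl (am F c) c.R z z' →
          ∑ y ∈ A z \ A z', wt y + ∑ y ∈ A z' \ A z, wt y ≤ (c.R : ℝ) ^ 3) ∧
        ((∃ y, wt y = 1 ∧ ∀ z', Cl (am F c) (c.R ^ 2) z z' → y ∈ A z') ∨
          (c.R : ℝ) ^ 4 ≤ ∑ y ∈ A z, wt y)) ∨
      ((∀ z', Cl (am F c) c.R z z' →
          ∑ y ∈ A z \ A z', wt y + ∑ y ∈ A z' \ A z, wt y ≤ 5 * (c.g : ℝ) ^ 3) ∧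
        ∃ y, wt y = 1 / (2 * Fintype.card c.V) ∧ ∀ z', Cl (am F c) (c.g ^ 2) z z' → y ∈ A z')

structure NearOut (F : Set (Cell P)) (c : Cell P) : Prop where
  qf_spec : ∀ z : Zm F c, ∀ x ∈ c.Qp, mkG F x = mkG F (pw F c z.1) * z.1 → ∀ y, c.Qc y →
    (∀ y', c.Qc y' → nr (x * y⁻¹) ≤ nr (x * y'⁻¹)) → qf F c z = c.cp y
  pw_spec : ∀ γ, InP F c (mkG F (pw F c γ) * γ) ∧
    ∀ a, InP F c (mkG F a * γ) → nr (pw F c γ) ≤ nr a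
  qf_d : ∀ (z : Zm F c) y, dG F z.1 (pos F c (qf F c z)) ≤ 3 * dG F z.1 (pos F c y)
  inU : ∀ z, NearP F c z → z ∈ Uf F c (qf F c z) 0
  mono1 : ∀ π a l, Uf F c π a ⊆ Uf F c (go (dbl c.τ) [l] π) (a + 1)
  mono2 : ∀ π a, Uf F c π a ⊆ Uf F c π (a + 1)
  rel : ∀ z z', NearP F c z → NearP F c z' → Cl (am F c) c.R z z' →
    ∃ u, FreeGroup.IsReduced u ∧ u.length ≤ c.R ^ 4 ∧ go (dbl c.τ) u (qf F c z) = qf F c z'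

def StNearG : Prop := ∀ (P : Prm) (F : Set (Cell P)), Adm F → ∀ c ∈ F, NearOut F c

/-! ### LOC: locality -/

/-- Two base points with the same small cells and the same visible neighbourhood. -/
structure Same (F F' : Set (Cell P)) (c c' : Cell P) (x x' : FreeGroup P.S) : Prop where
  adm : Adm F
  adm' : Adm F'
  mem : c ∈ F
  mem' : c' ∈ F'
  R_eq : c.R = c'.R
  agree : ∀ e, e.R < c.R → (e ∈ F ↔ e ∈ F')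
  core : c.Qc x
  core' : c'.Qc x'
  vis : ∀ a, nr a ≤ c.R2 → (a * x ∈ c.Qp ↔ a * x' ∈ c'.Qp)

def StLocG : Prop := ∀ (P : Prm) (F F' : Set (Cell P)) (c c' : Cell P) (x x' : FreeGroup P.S),
  Same F F' c c' x x' →
    (∀ a, nr a ≤ c.R ^ 14 → a ∈ KG F → a ∈ KG F') ∧
    (∀ a, nr a ≤ c.R ^ 13 → InP F c (mkG F (a * x)) → InP F' c' (mkG F' (a * x'))) ∧
    (∀ a s, 2 * nr a ≤ c.R ^ 14 → nr a + 1 ≤ c.R ^ 14 → (mkG F (a * x), s) ∈ EP F c 1 →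
      (mkG F' (a * x'), s) ∈ EP F' c' 1) ∧
    ∀ a a' s s', 8 * nr a ≤ c.R ^ 14 → 8 * nr a' ≤ c.R ^ 14 →
      adj F (mkG F (a * x), s) (mkG F (a' * x), s') →
      adj F' (mkG F' (a * x'), s) (mkG F' (a' * x'), s')

def StLocZ : Prop := ∀ (P : Prm) (F F' : Set (Cell P)) (c c' : Cell P) (x x' : FreeGroup P.S),
  Same F F' c c' x x' → ∀ u u', nr u ≤ c.R ^ 12 → nr u' ≤ c.R ^ 12 →
    am F c u (mkG F x, cls F c 1) = am F c u' (mkG F x, cls F c 1) →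
    am F' c' u (mkG F' x', cls F' c' 1) = am F' c' u' (mkG F' x', cls F' c' 1)

/-! ### ADDR, CELL, NEW: the concrete cells -/

structure AddrOut {j h a b D : ℕ} [NeZero D] (K : Core j h a b)
    (t : K.V → Om j D (K.R ^ 14)) (s : Om j D (K.R ^ 14))
    (x : FreeGroup (cprm j h a b D).S) : Prop where
  read : ∀ z, nr z ≤ K.R ^ 14 → (z * x ∈ (K.cell t).Qp ↔
    ∃ w, AV (K.R ^ 14) w ∧ z = K.hw (ext s) ((K.cell t).vx x) w)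
  len : ∀ w, AV (K.R ^ 14) w → nr (K.hw (ext s) ((K.cell t).vx x) w) = w.length
  inj : ∀ w w', AV (K.R ^ 14) w → AV (K.R ^ 14) w' →
    K.hw (ext s) ((K.cell t).vx x) w = K.hw (ext s) ((K.cell t).vx x) w' → w = w'
  gate : ∀ w, AV (K.R ^ 14) w →
    (K.cell t).Qc (K.hw (ext s) ((K.cell t).vx x) (root (ext s) w) * x) ∧
    (∀ y, (K.cell t).Qc y →
      nr (K.hw (ext s) ((K.cell t).vx x) w * x *
        (K.hw (ext s) ((K.cell t).vx x) (root (ext s) w) * x)⁻¹) ≤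
      nr (K.hw (ext s) ((K.cell t).vx x) w * x * y⁻¹)) ∧
    (K.cell t).cp (K.hw (ext s) ((K.cell t).vx x) (root (ext s) w) * x) =
      go (dbl K.τ) (sl (root (ext s) w)) ((K.cell t).cp x) ∧
    FreeGroup.IsReduced (sl (root (ext s) w)) ∧ (root (ext s) w).length ≤ w.length

def StAddr : Prop :=
  ∀ (j h a b D : ℕ) [NeZero D] (K : Core j h a b), 1 ≤ K.R → Girth K.τ (10 ^ 4 * K.R ^ 15) →
    ∃ loc : (K.V → Om j D (K.R ^ 14)) → K.V → Om j D (K.R ^ 14),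
      (∀ v (B : Om j D (K.R ^ 14) → Prop),
        Nat.card {t // B (loc t v)} * Nat.card (Om j D (K.R ^ 14)) =
          Nat.card {s // B s} * Nat.card (K.V → Om j D (K.R ^ 14))) ∧
      (∀ t x, (K.cell t).Qc x → AddrOut K t (loc t ((K.cell t).vx x)) x) ∧
      ∀ s s' : Om j D (K.R ^ 14), VisEq s s' → ∀ v w, AV (K.R ^ 14) w →
        K.hw (ext s) v w = K.hw (ext s') v w

/-- The conditions on a core that make all its cells good. -/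
structure Core.OK {j h a b : ℕ} (K : Core j h a b) (D : ℕ) : Prop where
  R_big : 1000 ≤ K.R
  S_le : j * (a * (2 * b) * D) ≤ K.R
  h_le : h ≤ K.R
  j_le : 2 * j + 1 ≤ K.R
  card : Fintype.card K.V = (2 * j) ^ (4 * (10 ^ 4 * K.R ^ 15))
  girth : Girth K.τ (10 ^ 4 * K.R ^ 15)
  gap : Gap K.τ (1 / 10 ^ 8)
  code : CodeOK K.W
  self : ∀ u v v', FreeGroup.IsReduced u → u.length = K.R ^ 15 → v ≠ v' →
    labs K.τ (fun y i => (K.lam y i).1) u v ≠ labs K.τ (fun y i => (K.lam y i).1) u v'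

def StCell : Prop :=
  ∀ (j h a b D : ℕ) [NeZero D] (K : Core j h a b), K.OK D → ∀ t : K.V → Om j D (K.R ^ 14),
    (K.cell t).OK ∧ ∀ e : Cell (cprm j h a b D), e.OK →
      (∀ u v v', FreeGroup.IsReduced u → u.length = e.L →
        labs K.τ (fun y i => (K.lam y i).2) u v ≠ labs e.τ (fun y i => (e.lab y i).2.1.2) u v') →
      ∀ x x' z, e.Qc x → e.Qc (z * x) → x' ∈ (K.cell t).Qp → z * x' ∈ (K.cell t).Qp → nr z < e.L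

def StNew : Prop :=
  ∀ (j h D : ℕ) [NeZero D] (F : Set (Cell (cprm j h ((2 * j) ^ 250000) ((2 * j) ^ 50000) D))),
    Adm F → F.Finite → 1024 ≤ h → ∃ R0, ∀ R, R0 ≤ R →
      ∃ K : Core j h ((2 * j) ^ 250000) ((2 * j) ^ 50000), K.R = R ∧ K.OK D ∧
        (∀ e ∈ F, e.R < R) ∧ ∀ t : K.V → Om j D (K.R ^ 14), Adm (insert (K.cell t) F)

/-! ### LINK, STAGE, FINAL -/

def StLink : Prop :=
  ∀ (j h a b D : ℕ) [NeZero D] (K : Core j h a b) (F0 : Set (Cell (cprm j h a b D)))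
    (Y : Finset (MonoidAlgebra ℂ (FreeGroup ((cprm j h a b D).S ⊕ (cprm j h a b D).S)))),
    (2 * j) ^ 36 ≤ D → K.OK D → (∀ e ∈ F0, e.R < K.R) →
    (∀ t : K.V → Om j D (K.R ^ 14), Adm (insert (K.cell t) F0)) →
    Y.card ≤ K.R → (∀ y ∈ Y, ∀ f ∈ y.coeff.support, nr f ≤ K.R) →
    ∃ t : K.V → Om j D (K.R ^ 14), ∀ F, Adm F → K.cell t ∈ F →
      (∀ e, e.R < K.R → (e ∈ F ↔ e ∈ F0)) → Hid F (K.cell t) Y

/-- The twisted norm bound in the model. -/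
def StTwist : Prop :=
  ∀ (P : Prm) (n : ℕ), ∃ R0, ∀ (F : Set (Cell P)), Adm F → ∀ c ∈ F, R0 ≤ c.R →
    ∀ Y, (∀ y ∈ Y, ∀ f ∈ y.coeff.support, nr f ≤ c.R) → Hid F c Y →
    ∀ p : Zm F c → c.V × ZMod 2, (∀ z, LocP F c z (p z)) → ∀ y ∈ Y, ∀ Λ,
      FB (kr (am F c) y) Λ → ∀ φ : ℝ,
        FB (tw (fun z z' => HtC c.τ (p z) (p z')) φ (kr (am F c) y))
          (Real.exp (c.R / (n + 1) ^ 2) * Λ)

/-- The blocks of one stage. -/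
def StBlk : Prop :=
  ∀ (p : ℝ≥0∞) [Fact (1 ≤ p)], 2 ≤ p → p ≠ ∞ → ∃ T B j0 : ℕ, ∀ (P : Prm) (F : Set (Cell P))
    (G : Type) [Group G] (ρ : FreeGroup (P.S ⊕ P.S) →* G) (e : G ≃ Gam F × NN F)
    (Φ : Gam F → NN F →* NN F), Adm F → GrpOut F G ρ e Φ → j0 ≤ P.j →
    (Fintype.card P.S : ℝ) ^ 2 ≤ (P.j : ℝ) ^ p.toReal → (Fintype.card P.S : ℝ) ^ p.toReal ≤ P.h →
    (∀ c ∈ F, B ≤ c.R) → ∀ c ∈ F, ∀ ι ∈ c.Pg, pr ι = 1 → ∃ blk : G → Finset G,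
      (∀ g g', g' ∈ blk g → blk g' = blk g) ∧ (∀ g g', g' ∈ blk g → g ∈ blk g) ∧
      (∀ a g g', (e a).1 = 1 → g' ∈ blk g → g' * a ∈ blk (g * a)) ∧
      (∀ g g', g' ∈ blk g → g' * e.symm (mkG F ι, 1) ∈ blk (g * e.symm (mkG F ι, 1))) ∧
      e.symm (mkG F ι, 1) ∈ blk 1 ∧ Close p ρ (xF P.S P.h P.j T) blk (1 / 10 ^ 6)

def StStage : Prop :=
  ∀ (p : ℝ≥0∞) [Fact (1 ≤ p)], 2 ≤ p → p ≠ ∞ → ∃ T B j0 : ℕ, ∀ P : Prm, j0 ≤ P.j →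
    (Fintype.card P.S : ℝ) ^ 2 ≤ (P.j : ℝ) ^ p.toReal → (Fintype.card P.S : ℝ) ^ p.toReal ≤ P.h →
    ∀ n : ℕ, ∃ R0, ∀ (F : Set (Cell P)) (G : Type) [Group G] (ρ : FreeGroup (P.S ⊕ P.S) →* G)
      (e : G ≃ Gam F × NN F) (Φ : Gam F → NN F →* NN F), Adm F → GrpOut F G ρ e Φ →
      (∀ c ∈ F, B ≤ c.R) → ∀ c ∈ F, R0 ≤ c.R → ∀ Y,
      (∀ y ∈ Y, ∀ f ∈ y.coeff.support, nr f ≤ c.R) → Hid F c Y →
      Nonempty (Stage p ρ (xF P.S P.h P.j T) c.R Y (Real.exp (c.R / (n + 1) ^ 2)))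

end Pool.Agent.P.MP_9167e9_an
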