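import Pool.Agent.P.MP_9167e9_an.StA

/-!
Interfaces of the wall space modules WS (abstract small cancellation), TREE and GP (instances).
The space is a group `X` acting on itself by right multiplication.
-/

noncomputable section
open scoped Classical

namespace Pool.Agent.P.MP_9167e9_an

/-- Walls on a group, invariant under right multiplication. -/
structure PreWS (X J : Type) [Group X] where
  Sec : Type
  sec : J → X → Sec
  W : X → X → Finset J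
  mem_W : ∀ a x y, a ∈ W x y ↔ sec a x ≠ sec a y
  aw : J → X → J
  aw_one : ∀ a, aw a 1 = a
  aw_mul : ∀ a g g', aw (aw a g) g' = aw a (g * g')
  W_aw : ∀ a x y g, aw a g ∈ W (x * g) (y * g) ↔ a ∈ W x y
  step : ∀ x y, x ≠ y → ∃ z a, W x z = {a} ∧ a ∈ W x y ∧ a ∉ W z y
  car : J → Set X
  car_step : ∀ x z a, W x z = {a} → x ∈ car a
  car_aw : ∀ a x g, x ∈ car a → x * g ∈ car (aw a g)
  car_gate : ∀ a x, (car a).Nonempty →
    ∃ c ∈ car a, ∀ c' ∈ car a, (W x c').card = (W x c).card + (W c c').card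

namespace PreWS

variable {X J : Type} [Group X] (w : PreWS X J)

/-- The number of separating walls. -/
def d (x y : X) : ℕ := (w.W x y).card

/-- The wall `a` separates two points of `T`. -/
def Cross (a : J) (T : Set X) : Prop := ∃ x ∈ T, ∃ y ∈ T, a ∈ w.W x y

/-- `c` is the gate of `x` in `T`. -/
def Gate (T : Set X) (x c : X) : Prop := c ∈ T ∧ ∀ c' ∈ T, w.d x c' = w.d x c + w.d c c'

end PreWS

/-- A wall space with gated cells and rotation groups satisfying small cancellation. -/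
structure WS (X J : Type) (C : Type 1) [Group X] extends PreWS X J where
  cell : C → Set X
  π : C → X → X
  π_gate : ∀ Q x, toPreWS.Gate (cell Q) x (π Q x)
  ac : C → X → C
  ac_one : ∀ Q, ac Q 1 = Q
  ac_mul : ∀ Q g g', ac (ac Q g) g' = ac Q (g * g')
  cell_ac : ∀ Q x g, x ∈ cell Q → x * g ∈ cell (ac Q g)
  K : C → Subgroup X
  K_ac : ∀ Q k g, k ∈ K Q → g⁻¹ * k * g ∈ K (ac Q g)
  K_fix : ∀ Q k, k ∈ K Q → ac Q k = Q
  g : C → ℕ
  θ : C → ℕ
  δ : C → ℕ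
  g_ac : ∀ Q x, g (ac Q x) = g Q
  θ_ac : ∀ Q x, θ (ac Q x) = θ Q
  δ_ac : ∀ Q x, δ (ac Q x) = δ Q
  θ_pos : ∀ Q, 1 ≤ θ Q
  big : ∀ Q, 1000 * θ Q ≤ g Q
  disp : ∀ Q k x, k ∈ K Q → k ≠ 1 → x ∈ cell Q → g Q ≤ toPreWS.d x (x * k)
  cov : ∀ Q x y, x ∈ cell Q → y ∈ cell Q → ∃ k ∈ K Q, toPreWS.d x (y * k) ≤ δ Q
  ax1 : ∀ Q a c c', ¬ toPreWS.Cross a (cell Q) → c ∈ car a → c' ∈ car a →
    toPreWS.d (π Q c) (π Q c') ≤ θ Q
  ax2 : ∀ Q Q' c c', Q ≠ Q' → c ∈ cell Q' → c' ∈ cell Q' → toPreWS.d (π Q c) (π Q c') ≤ θ Q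

namespace WS

variable {X J : Type} {C : Type 1} [Group X] (w : WS X J C)

/-- The normal subgroup generated by the rotation groups. -/
def KK : Subgroup X := ⨆ Q, w.K Q

/-- The number of walls crossing `Q` that separate `x` and `y`. -/
def run (Q : C) (x y : X) : ℕ := w.d (w.π Q x) (w.π Q y)

/-- The walls separating `x` from the cell `B`. -/
def WB (B : C) (x : X) : Finset J := w.W (w.π B x) x

/-- `x` is as close to `B` as any point of its orbit. -/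
def Min (B : C) (x : X) : Prop := ∀ k ∈ w.KK, (w.WB B x).card ≤ (w.WB B (x * k)).card

/-- The geodesic from `B` to `x` is almost shortest inside every cell. -/
def Good (B : C) (x : X) : Prop :=
  ∀ Q, ∀ k ∈ w.K Q,
    10 * w.run Q (w.π B x) x ≤ 10 * w.d (w.π Q (w.π B x)) (w.π Q x * k) + w.g Q

/-- The geodesic from `B` to `x` spends a long time in `Q`. -/
def Heavy (B Q : C) (x : X) : Prop := 2 * w.g Q ≤ 5 * w.run Q (w.π B x) x

/-- The wall `a` is adjacent to `B`. -/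
def Adj (B : C) (a : J) : Prop := ∃ b ∈ w.cell B, b ∈ w.car a

/-- The bottom walls of `x`. -/
def Bot (B : C) (x : X) : Finset J := (w.WB B x).filter (w.Adj B)

/-- Two cells meet. -/
def Meet (B Q : C) : Prop := ∃ x, x ∈ w.cell B ∧ x ∈ w.cell Q

end WS

/-- Elementary facts on wall spaces and gates. -/
structure PreOut {X J : Type} [Group X] (w : PreWS X J) : Prop where
  d_comm : ∀ x y, w.d x y = w.d y x
  d_tri : ∀ x y z, w.d x z ≤ w.d x y + w.d y z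
  d_zero : ∀ x y, w.d x y = 0 ↔ x = y
  d_mul : ∀ x y g, w.d (x * g) (y * g) = w.d x y
  W_add : ∀ x y z, w.d x z = w.d x y + w.d y z →
    w.W x z = w.W x y ∪ w.W y z ∧ Disjoint (w.W x y) (w.W y z)
  gate_uniq : ∀ T x c c', w.Gate T x c → w.Gate T x c' → c = c'
  gate_W : ∀ T x y c e, w.Gate T x c → w.Gate T y e →
    ∀ a, a ∈ w.W c e ↔ a ∈ w.W x y ∧ w.Cross a T
  gate_sep : ∀ T x c, w.Gate T x c → ∀ a, a ∈ w.W c x ↔ ∀ b ∈ T, a ∈ w.W b x
  convex : ∀ T : Set X, (∀ x, ∃ c, w.Gate T x c) → ∀ x ∈ T, ∀ y ∈ T, ∀ z,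
    w.d x y = w.d x z + w.d z y → z ∈ T
  through : ∀ a x y, a ∈ w.W x y → ∃ c c', w.W c c' = {a} ∧
    w.d x y = w.d x c + 1 + w.d c' y
  between : ∀ x y n, n ≤ w.d x y → ∃ z, w.d x z = n ∧ w.d x y = w.d x z + w.d z y

def StPre : Prop := ∀ (X J : Type) [Group X] (w : PreWS X J), PreOut w

/-- The small cancellation theory. -/
structure WSOut {X J : Type} {C : Type 1} [Group X] (w : WS X J C) : Prop where
  normal : w.KK.Normal
  π_ac : ∀ Q x g, w.π (w.ac Q g) (x * g) = w.π Q x * g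
  WB_ac : ∀ B x g a, w.aw a g ∈ w.WB (w.ac B g) (x * g) ↔ a ∈ w.WB B x
  Bot_ac : ∀ B x g a, w.aw a g ∈ w.Bot (w.ac B g) (x * g) ↔ a ∈ w.Bot B x
  run_ac : ∀ Q x y g, w.run (w.ac Q g) (x * g) (y * g) = w.run Q x y
  good_ac : ∀ B x g, w.Good B x → w.Good (w.ac B g) (x * g)
  min_ac : ∀ B x g, w.Min B x → w.Min (w.ac B g) (x * g)
  heavy_ac : ∀ B Q x g, w.Heavy B Q x → w.Heavy (w.ac B g) (w.ac Q g) (x * g)
  sep : ∀ Q a x y q, ¬ w.Cross a (w.cell Q) → q ∈ w.cell Q → a ∈ w.W q x → a ∈ w.W q y →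
    w.run Q x y ≤ w.θ Q
  pass : ∀ Q x y, w.θ Q < w.run Q x y →
    w.d x y = w.d x (w.π Q x) + w.run Q x y + w.d (w.π Q y) y
  green : ∀ k ∈ w.KK, k ≠ 1 → ∀ x, ∃ Q, ∃ κ ∈ w.K Q, κ ≠ 1 ∧
    w.d (w.π Q (x * k)) (w.π Q x * κ) ≤ 15 * w.θ Q
  geo : ∀ x y, (∀ k ∈ w.KK, w.d x y ≤ w.d x (y * k)) → ∀ Q, ∀ κ ∈ w.K Q,
    w.run Q x y ≤ w.d (w.π Q x) (w.π Q y * κ) + w.θ Q
  min_ex : ∀ B x, ∃ k ∈ w.KK, w.Min B (x * k)
  min_good : ∀ B x, w.Min B x → w.Good B x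
  min_sub : ∀ B x z, w.d (w.π B x) x = w.d (w.π B x) z + w.d z x → w.Min B x → w.Min B z
  good_sub : ∀ B x z, w.d (w.π B x) x = w.d (w.π B x) z + w.d z x → w.Good B x →
    w.π B z = w.π B x ∧ w.Good B z
  first : ∀ B y, ∀ k ∈ w.KK, w.Good B y → w.Good B (y * k) →
    k ∈ w.K B ∨ ∃ Q, w.Heavy B Q y ∧ w.Heavy (w.ac B k⁻¹) Q y
  cons : ∀ B y, ∀ k ∈ w.KK, w.Good B y → w.Good B (y * k) →
    k ∈ w.K B ∨ ∃ Q, ∃ α ∈ w.K B, w.Heavy B Q y ∧ w.Heavy B Q (y * k * α)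
  gatecons : ∀ B y, ∀ k ∈ w.KK, w.Good B y → w.Good B (y * k) →
    ∃ α ∈ w.K B, w.run B y (y * k * α) ≤ w.θ B
  bot_keep : ∀ B Q y y' a, w.Heavy B Q y → w.Heavy B Q y' → a ∈ w.Bot B y →
    ¬ w.Cross a (w.cell Q) → a ∈ w.Bot B y'
  meet_keep : ∀ B Q Q' y y', w.Heavy B Q y → w.Heavy B Q y' → w.Meet B Q' → Q' ≠ Q →
    w.run Q' (w.π B y) y ≤ w.run Q' (w.π B y') y' + 2 * w.θ Q'
  uniq : ∀ B Q Q' y, w.Meet B Q → w.Meet B Q' → 2 * w.θ Q < w.run Q (w.π B y) y →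
    2 * w.θ Q' < w.run Q' (w.π B y) y → Q = Q'
  lowest : ∀ B y Q, w.Heavy B Q y → ∃ Q₀, w.Heavy B Q₀ y ∧
    ∀ Q' a, w.Heavy B Q' y → w.Adj B a → w.Cross a (w.cell Q') → w.Cross a (w.cell Q₀)
  bot_ex : ∀ B x, ∀ a' ∈ w.WB B x, ∃ a, w.Adj B a ∧ ∀ y, a' ∈ w.WB B y → a ∈ w.WB B y
  bot_car : ∀ B x, ∀ a ∈ w.Bot B x, w.π B x ∈ w.car a
  process : ∀ (B : C) (x y : X) (t δ₀ : ℕ) (Nr : ℕ → J → Prop), w.Min B x → w.d x y ≤ t →
    (∀ i a, Nr i a → Nr (i + 1) a) → (∀ i a, ∀ k ∈ w.KK, Nr i a → Nr i (w.aw a k)) →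
    (∀ a ∈ w.W x y, Nr 0 a) →
    (∀ Q, w.g Q ≤ 20 * t → w.δ Q ≤ δ₀ ∧ ∀ i a a', w.Cross a (w.cell Q) → Nr i a →
      w.Cross a' (w.cell Q) → Nr (i + 1) a') →
    ∃ k ∈ w.KK, w.Good B (y * k) ∧ (∀ a ∈ w.WB B x, ¬ Nr (2 * t) a → a ∈ w.WB B (y * k)) ∧
      (∀ a ∈ w.WB B (y * k), a ∈ w.WB B x ∨ Nr (2 * t) a) ∧
      (w.WB B x \ w.WB B (y * k)).card ≤ 2 * t + 2 * t * δ₀ ∧
      (w.WB B (y * k) \ w.WB B x).card ≤ t + 2 * t * δ₀

def StWS : Prop := ∀ (X J : Type) (C : Type 1) [Group X] (w : WS X J C), WSOut w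

/-! ### TREE -/

/-- A subset of the free group that is connected through edges `x — s x`. -/
def Conn {S : Type} (T : Set (FreeGroup S)) : Prop :=
  ∀ x ∈ T, ∀ y ∈ T, Relation.ReflTransGen
    (fun a b => b ∈ T ∧ ∃ s, b = FreeGroup.of s * a ∨ a = FreeGroup.of s * b) x y

structure TreeOut {S : Type} (w : PreWS (FreeGroup S) (FreeGroup S × S)) : Prop where
  d_eq : ∀ x y, w.d x y = nr (x * y⁻¹)
  aw_eq : ∀ x s g, w.aw (x, s) g = (x * g, s)
  car_eq : ∀ x s, w.car (x, s) = {x, FreeGroup.of s * x}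
  W_edge : ∀ x s, w.W x (FreeGroup.of s * x) = {(x, s)}
  two : ∀ a x y z, a ∈ w.W x y → a ∈ w.W x z → a ∉ w.W y z
  gate : ∀ T : Set (FreeGroup S), T.Nonempty → Conn T → ∀ x, ∃ c, w.Gate T x c
  cross : ∀ T : Set (FreeGroup S), Conn T → ∀ x s, w.Cross (x, s) T ↔
    x ∈ T ∧ FreeGroup.of s * x ∈ T
  geo_uniq : ∀ x y z z', w.d x y = w.d x z + w.d z y → w.d x y = w.d x z' + w.d z' y →
    w.d x z = w.d x z' → z = z'
  word : ∀ (u v : List (S × Bool)) (x : FreeGroup S), FreeGroup.IsReduced (u ++ v) →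
    w.d x (FreeGroup.mk v * x) = v.length ∧
      w.d x (FreeGroup.mk (u ++ v) * x) = u.length + v.length

def StTree : Prop := ∀ S : Type, ∃ w : PreWS (FreeGroup S) (FreeGroup S × S), TreeOut w

/-! ### GP -/

section GP

variable {L : Type} (adj : L → L → Prop) (H : Type) [AddCommGroup H]

/-- The relations of the graph product of copies of `H`. -/
def gpRel : Set (FreeGroup (L × H)) :=
  {r | (∃ f a b, r = FreeGroup.of (f, a) * FreeGroup.of (f, b) * (FreeGroup.of (f, a + b))⁻¹) ∨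
    ∃ f f' a b, adj f f' ∧ r = FreeGroup.of (f, a) * FreeGroup.of (f', b) *
      (FreeGroup.of (f, a))⁻¹ * (FreeGroup.of (f', b))⁻¹}

/-- The graph product of copies of `H` over the graph `adj`. -/
abbrev GP : Type := PresentedGroup (gpRel adj H)

variable {H}

/-- The lamp at `f` in state `a`. -/
def lmp (f : L) (a : H) : GP adj H := PresentedGroup.of (f, a)

variable (H)

/-- The parabolic subgroup of a set of lamps. -/
def Par (T : Set L) : Subgroup (GP adj H) := Subgroup.closure {x | ∃ f ∈ T, ∃ a, x = lmp adj f a}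

/-- The star of a lamp. -/
def star (f : L) : Set L := {f' | f' = f ∨ adj f f'}

/-- Walls of the graph product. -/
abbrev Wall : Type := Σ f : L, Quotient (QuotientGroup.rightRel (Par adj H (star adj f)))

variable {H}

/-- The wall crossed when the lamp `f` is changed at `x`. -/
def wall (f : L) (x : GP adj H) : Wall adj H := ⟨f, Quotient.mk _ x⟩

/-- The right coset of a parabolic subgroup. -/
def pc (T : Set L) (q : GP adj H) : Set (GP adj H) := {x | x * q⁻¹ ∈ Par adj H T}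

/-- A set of pairwise commuting lamps. -/
def Clq (T : Set L) : Prop := ∀ f ∈ T, ∀ f' ∈ T, f ≠ f' → adj f f'

structure GPOut (w : PreWS (GP adj H) (Wall adj H)) : Prop where
  lmp_add : ∀ f (a b : H), lmp adj f (a + b) = lmp adj f a * lmp adj f b
  lmp_comm : ∀ f f' (a b : H), adj f f' → Commute (lmp adj f a) (lmp adj f' b)
  aw_eq : ∀ f x g, w.aw (wall adj f x) g = wall adj f (x * g)
  car_eq : ∀ f x, w.car (wall adj f x) = pc adj (star adj f) x
  W_lmp : ∀ f (a : H) x, a ≠ 0 → w.W x (lmp adj f a * x) = {wall adj f x}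
  step' : ∀ x y, x ≠ y → ∃ f, ∃ a : H, a ≠ 0 ∧ wall adj f x ∈ w.W x y ∧
    wall adj f x ∉ w.W (lmp adj f a * x) y
  gate : ∀ T q x, ∃ c, w.Gate (pc adj T q) x c
  supp : ∀ T x y, x * y⁻¹ ∈ Par adj H T ↔ ∀ a ∈ w.W x y, a.1 ∈ T
  cross : ∀ T q a, w.Cross a (pc adj T q) ↔ a.1 ∈ T ∧ ∃ z ∈ pc adj T q, a = wall adj a.1 z
  comm : ∀ x y a a', a ∈ w.W x y → a' ∈ w.W x y → x ∈ w.car a → x ∈ w.car a' → a ≠ a' →
    adj a.1 a'.1
  proj : ∀ (T T' : Set L) (q q' x y c e : GP adj H) (θ : ℕ), Clq adj T → T.Finite →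
    ((pc adj T q ∩ pc adj T' q').Nonempty → (T ∩ T').ncard ≤ θ) →
    (∀ f, f ∉ T → (T ∩ star adj f).ncard ≤ θ) → x ∈ pc adj T' q' → y ∈ pc adj T' q' →
    w.Gate (pc adj T q) x c → w.Gate (pc adj T q) y e → w.d c e ≤ θ
  clique : ∀ (E : Type) [Fintype E] (ed : E → L), Function.Injective ed →
    Clq adj (Set.range ed) → ∃ ψ : Multiplicative (E → H) →* GP adj H,
      (∀ e a, ψ (Multiplicative.ofAdd (Pi.single e a)) = lmp adj (ed e) a) ∧
      (∀ a, w.d 1 (ψ (Multiplicative.ofAdd a)) = hammingNorm a) ∧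
      ψ.range = Par adj H (Set.range ed)
  lift : ∀ (N : Type) [Group N] (η : L → H → N), (∀ f a b, η f (a + b) = η f a * η f b) →
    (∀ f f' a b, adj f f' → Commute (η f a) (η f' b)) →
    ∃ φ : GP adj H →* N, ∀ f a, φ (lmp adj f a) = η f a

end GP

def StGP : Prop :=
  ∀ (L : Type) (adj : L → L → Prop) (H : Type) [AddCommGroup H] [Nontrivial H],
    (∀ f f', adj f f' → adj f' f) → (∀ f, ¬ adj f f) →
    ∃ w : PreWS (GP adj H) (Wall adj H), GPOut adj w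

/-! ### CORE, LAB, CODE -/

/-- No non-empty reduced walk of length less than `g` is closed. -/
def Girth {j : ℕ} {V : Type} (τ : Fin j → Equiv.Perm V) (g : ℕ) : Prop :=
  ∀ u : List (Lt j), FreeGroup.IsReduced u → u ≠ [] → u.length < g → ∀ v, go τ u v ≠ v

def StCore : Prop :=
  ∀ j g : ℕ, 1000 ≤ j → 1 ≤ g → ∃ τ : Fin j → Equiv.Perm (Fin ((2 * j) ^ (4 * g))),
    Girth τ g ∧ Gap τ (1 / 10 ^ 8)

/-- The labels met along a walk; an edge is named by its target and its slot. -/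
def labs {j : ℕ} {V A : Type} (τ : Fin j → Equiv.Perm V) (lam : V → Fin j → A) :
    List (Lt j) → V → List A
  | [], _ => []
  | l :: u, v =>
      (if l.2 then lam (τ l.1 (go τ u v)) l.1 else lam (go τ u v) l.1) :: labs τ lam u v

/-- Walks from different vertices along one long slot word have different labels. -/
def StLabSelf : Prop :=
  ∀ (j g L a : ℕ) (V : Type) [Fintype V] (τ : Fin j → Equiv.Perm V), Girth τ g → L < g →
    (Fintype.card V) ^ 6 * (2 * j) ^ (3 * L) < a ^ L →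
    ∃ lam : V → Fin j → Fin a, ∀ u v v', FreeGroup.IsReduced u → u.length = L → v ≠ v' →
      labs τ lam u v ≠ labs τ lam u v'

/-- A labelling avoiding finitely many families of forbidden label words. -/
def StLabCross : Prop :=
  ∀ (j g b : ℕ) (V I : Type) [Fintype V] [Fintype I] (τ : Fin j → Equiv.Perm V) (L n : I → ℕ)
    (Fb : I → List (Lt j) → Finset (List (Fin (2 * b)))), Girth τ g → 1 ≤ b →
    (∀ i, 1 ≤ L i ∧ L i < g) → (∀ i u, (Fb i u).card ≤ n i) →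
    ∑ i, (L i * (2 * j) ^ L i * n i : ℝ) / b ^ L i ≤ 1 →
    ∃ lam : V → Fin j → Fin (2 * b), ∀ i u v, FreeGroup.IsReduced u → u.length = L i →
      labs τ lam u v ∉ Fb i u

def StCode : Prop :=
  ∀ (h : ℕ) (E : Type) [Fintype E], h.Prime → 1024 ≤ h → Even (Fintype.card E) →
    ∃ W : Submodule (ZMod h) (E → ZMod h), CodeOK W

end Pool.Agent.P.MP_9167e9_an
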