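import Mathlib

/-!
Definitions used by the statement: the algebras `B^p_r(G)` and `B^{p,*}_r(G)` of a discrete group,
the canonical morphism, and `K_0` of a unital ring through idempotent matrices.
-/

noncomputable section
open scoped ENNReal

namespace Pool.Agent.P.MP_9167e9_an

section K

/-- An idempotent square matrix over `R`. -/
structure Idem (R : Type) [Ring R] where
  n : ℕ
  e : Matrix (Fin n) (Fin n) R
  idem : e * e = e

variable {R S : Type} [Ring R] [Ring S]

/-- Algebraic equivalence of idempotents: `a = x y` and `b = y x` for rectangular matrices. -/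
def Idem.Eqv (a b : Idem R) : Prop :=
  ∃ (x : Matrix (Fin a.n) (Fin b.n) R) (y : Matrix (Fin b.n) (Fin a.n) R),
    x * y = a.e ∧ y * x = b.e

/-- The block diagonal sum of two idempotents. -/
def Idem.add (a b : Idem R) : Idem R :=
  ⟨a.n + b.n, Matrix.reindex finSumFinEquiv finSumFinEquiv (Matrix.fromBlocks a.e 0 0 b.e), by
    simp [Matrix.submatrix_mul_equiv, Matrix.fromBlocks_multiply, a.idem, b.idem]⟩

/-- The image of an idempotent under a ring homomorphism. -/
def Idem.map (φ : R →+* S) (a : Idem R) : Idem S :=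
  ⟨a.n, a.e.map φ, by rw [← Matrix.map_mul, a.idem]⟩

/-- The relations `[a] = [b]` for equivalent idempotents and `[a ⊕ b] = [a] + [b]`. -/
def K0Rel (R : Type) [Ring R] : AddSubgroup (FreeAbelianGroup (Idem R)) :=
  AddSubgroup.closure
    ({z | ∃ a b : Idem R, a.Eqv b ∧ z = FreeAbelianGroup.of a - FreeAbelianGroup.of b} ∪
     {z | ∃ a b : Idem R,
        z = FreeAbelianGroup.of (a.add b) - FreeAbelianGroup.of a - FreeAbelianGroup.of b})

/-- `K_0` of a unital ring; for a unital Banach algebra this is its topological `K_0`. -/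
abbrev K0 (R : Type) [Ring R] : Type := FreeAbelianGroup (Idem R) ⧸ K0Rel R

theorem Idem.map_add (φ : R →+* S) (a b : Idem R) :
    (a.add b).map φ = (a.map φ).add (b.map φ) := by
  have h : (Matrix.reindex finSumFinEquiv finSumFinEquiv
      (Matrix.fromBlocks a.e 0 0 b.e)).map φ = Matrix.reindex finSumFinEquiv finSumFinEquiv
      (Matrix.fromBlocks (a.e.map φ) 0 0 (b.e.map φ)) := by
    ext i j
    obtain ⟨i, rfl⟩ := finSumFinEquiv.surjective i
    obtain ⟨j, rfl⟩ := finSumFinEquiv.surjective j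
    cases i <;> cases j <;> simp
  unfold Idem.map Idem.add
  simp only [Idem.mk.injEq, heq_eq_eq, true_and]
  exact h

theorem K0Rel_le (φ : R →+* S) :
    K0Rel R ≤ (K0Rel S).comap (FreeAbelianGroup.map (Idem.map φ)) := by
  refine (AddSubgroup.closure_le _).2 ?_
  rintro z (⟨a, b, ⟨x, y, h1, h2⟩, rfl⟩ | ⟨a, b, rfl⟩)
  · refine AddSubgroup.subset_closure (Or.inl ⟨a.map φ, b.map φ, ⟨x.map φ, y.map φ, ?_, ?_⟩, ?_⟩)
    · exact (Matrix.map_mul (f := φ)).symm.trans (congrArg (fun m => Matrix.map m φ) h1)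
    · exact (Matrix.map_mul (f := φ)).symm.trans (congrArg (fun m => Matrix.map m φ) h2)
    · simp
  · refine AddSubgroup.subset_closure (Or.inr ⟨a.map φ, b.map φ, ?_⟩)
    simp [Idem.map_add]

/-- The map induced on `K_0` by a ring homomorphism: `[a] ↦ [φ a]`. -/
def K0.map (φ : R →+* S) : K0 R →+ K0 S :=
  QuotientAddGroup.map _ _ (FreeAbelianGroup.map (Idem.map φ)) (K0Rel_le φ)

end K

/-- The Banach space `ℓ^p(I)`. -/
abbrev Lq (I : Type) (p : ℝ≥0∞) : Type := lp (fun _ : I => ℂ) p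

/-- The Banach algebra of bounded operators on `ℓ^p(I)`. -/
abbrev Op (I : Type) (p : ℝ≥0∞) [Fact (1 ≤ p)] : Type := Lq I p →L[ℂ] Lq I p

variable (G : Type) [Group G] (p : ℝ≥0∞) [Fact (1 ≤ p)]

variable {G p} in
/-- `T` is left convolution by the finitely supported `f`: `(T ξ)(x) = ∑_y f(y) ξ(y⁻¹ x)`. -/
def IsConv (f : G →₀ ℂ) (T : Op G p) : Prop :=
  ∀ (ξ : Lq G p) (x : G), T ξ x = f.sum fun y c => c * ξ (y⁻¹ * x)

variable {G} in
/-- The involution `f^*(x) = conj (f (x⁻¹))`. -/
def invol (f : G →₀ ℂ) : G →₀ ℂ :=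
  (f.mapRange (starRingEnd ℂ) (map_zero _)).equivMapDomain (Equiv.inv G)

/-- The closed subring generated by a subset of a normed ring. -/
def Clos {A : Type} [NormedRing A] (s : Set A) : RingCat.{0} :=
  RingCat.of (Subring.closure s).topologicalClosure

theorem fst_mem_clos {A : Type} [NormedRing A] {s : Set (A × Aᵐᵒᵖ)} {t : Set A}
    (h : ∀ z ∈ s, z.1 ∈ t) (z : (Subring.closure s).topologicalClosure) :
    z.1.1 ∈ (Subring.closure t).topologicalClosure := by
  have h1 : Subring.closure s ≤ (Subring.closure t).comap (RingHom.fst _ _) :=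
    Subring.closure_le.2 fun z hz => Subring.subset_closure (h z hz)
  exact map_mem_closure continuous_fst z.2 fun y hy => h1 hy

/-- The first coordinate, as a map of closed subrings. -/
def fstHom {A : Type} [NormedRing A] {s : Set (A × Aᵐᵒᵖ)} {t : Set A} (h : ∀ z ∈ s, z.1 ∈ t) :
    Clos s →+* Clos t :=
  ((RingHom.fst A Aᵐᵒᵖ).comp (Subring.subtype _)).codRestrict _ (fst_mem_clos h)

/-- The convolution operators `λ(f)`. -/
def convs : Set (Op G p) := {T | ∃ f : G →₀ ℂ, IsConv f T}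

/-- The pairs `(λ(f), λ(f^*))`. -/
def pairs : Set (Op G p × (Op G p)ᵐᵒᵖ) :=
  {z | ∃ f : G →₀ ℂ, IsConv f z.1 ∧ IsConv (invol f) z.2.unop}

theorem pairs_fst : ∀ z ∈ pairs G p, z.1 ∈ convs G p := fun _ ⟨f, h, _⟩ => ⟨f, h⟩

/-- `B^p_r(G)`: the norm closure of the convolution operators in `B(ℓ^p G)`. -/
def Bred : RingCat.{0} := Clos (convs G p)

/-- `B^{p,*}_r(G)`: the closure of the pairs `(λ(f), λ(f^*))` in `B(ℓ^p G) × B(ℓ^p G)^op`, whose
norm is `max (‖λ(f)‖, ‖λ(f^*)‖)`. -/
def BredStar : RingCat.{0} := Clos (pairs G p)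

/-- The canonical morphism `ι_p : B^{p,*}_r(G) → B^p_r(G)`. -/
def canon : BredStar G p →+* Bred G p := fstHom (pairs_fst G p)

end Pool.Agent.P.MP_9167e9_an
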